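import Mathlib

/-! Reduced words in free groups. -/

namespace Pool.Agent.MP1d7ced

open FreeGroup

variable {X : Type*}

lemma isReduced_append_iff {w v : List (X × Bool)} :
    IsReduced (w ++ v) ↔ IsReduced w ∧ IsReduced v ∧
      ∀ a ∈ w.getLast?, ∀ b ∈ v.head?, a.1 = b.1 → a.2 = b.2 := by
  unfold FreeGroup.IsReduced
  rw [List.isChain_append]

variable [DecidableEq X]

lemma toWord_mk_of_isReduced {w : List (X × Bool)} (h : IsReduced w) : (mk w : FreeGroup X).toWord = w := by
  rw [toWord_mk, h.reduce_eq]

lemma norm_mk_of_isReduced {w : List (X × Bool)} (h : IsReduced w) :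
    (mk w : FreeGroup X).norm = w.length := by
  rw [FreeGroup.norm, toWord_mk_of_isReduced h]

lemma reduce_append_reduce_left (w v : List (X × Bool)) : reduce (reduce w ++ v) = reduce (w ++ v) := by
  have h : (mk (reduce w ++ v) : FreeGroup X) = mk (w ++ v) := by
    rw [← mul_mk, ← mul_mk, reduce.self]
  exact reduce.sound h

/-- appending a letter to a reduced word either keeps it reduced or deletes the last letter -/
lemma reduce_append_singleton {w : List (X × Bool)} (hw : IsReduced w) (a : X × Bool) :
    reduce (w ++ [a]) = w ++ [a] ∨ reduce (w ++ [a]) = w.dropLast := by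
  by_cases h : IsReduced (w ++ [a])
  · exact Or.inl h.reduce_eq
  · right
    rw [isReduced_append_iff] at h
    push Not at h
    obtain ⟨b, hb, c, hc, h1, h2⟩ := h hw IsReduced.singleton
    simp only [List.head?_cons, Option.mem_def, Option.some.injEq] at hc
    subst hc
    obtain ⟨w', rfl⟩ : ∃ w', w = w' ++ [b] := by
      rw [Option.mem_def, List.getLast?_eq_some_iff] at hb
      exact hb
    have h3 : Red.Step (w' ++ [b] ++ [a]) w' := by
      obtain ⟨b1, b2⟩ := b
      obtain ⟨a1, a2⟩ := a
      simp only at h1 h2
      subst h1
      have h4 : a2 = !b2 := by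
        cases a2 <;> cases b2 <;> simp_all
      subst h4
      have := @Red.Step.not X w' [] b1 b2
      simpa using this
    have h5 : IsReduced w' := (isReduced_append_iff.1 hw).1
    rw [reduce.Step.eq h3, h5.reduce_eq]
    simp

lemma take_isPrefix_reduce_append (s : List (X × Bool)) : ∀ w : List (X × Bool), IsReduced w →
    w.take (w.length - s.length) <+: reduce (w ++ s) := by
  induction s with
  | nil => intro w hw; simp [hw.reduce_eq]
  | cons a s ih =>
    intro w hw
    have e : reduce (w ++ a :: s) = reduce (reduce (w ++ [a]) ++ s) := by
      rw [reduce_append_reduce_left]; simp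
    rw [e]
    have hr : IsReduced (reduce (w ++ [a])) := by
      rw [isReduced_iff_reduce_eq, reduce.idem]
    refine List.IsPrefix.trans ?_ (ih _ hr)
    rcases reduce_append_singleton hw a with h | h
    · rw [h, List.take_append]
      simp only [List.length_append, List.length_cons, List.length_nil]
      refine List.IsPrefix.trans ?_ (List.prefix_append _ _)
      apply List.take_prefix_take_left
      omega
    · rw [h]
      simp only [List.length_dropLast, List.length_cons]
      rw [List.dropLast_eq_take, List.take_take]
      apply List.take_prefix_take_left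
      omega

lemma norm_le_of_isPrefix {x : List (X × Bool)} {p s : FreeGroup X} (h1 : x <+: p.toWord)
    (h2 : ¬ x <+: (p * s).toWord) : ((mk x)⁻¹ * p).norm ≤ s.norm := by
  obtain ⟨z, hz⟩ := h1
  have hp : p = mk x * mk z := by
    rw [mul_mk, hz, mk_toWord]
  have hred : IsReduced (x ++ z) := by rw [hz]; exact isReduced_toWord
  have hz' : IsReduced z := (isReduced_append_iff.1 hred).2.1
  have e : (mk x)⁻¹ * p = mk z := by rw [hp]; group
  rw [e, norm_mk_of_isReduced hz']
  by_contra hlt
  push Not at hlt
  apply h2
  rw [toWord_mul, ← hz]
  refine List.IsPrefix.trans ?_ (take_isPrefix_reduce_append s.toWord (x ++ z) hred)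
  have hl : s.toWord.length < z.length := hlt
  rw [List.take_append]
  have : (x ++ z).length - s.toWord.length = x.length + (z.length - s.toWord.length) := by
    rw [List.length_append]; omega
  rw [this, List.take_of_length_le (by omega)]
  exact List.prefix_append _ _

end Pool.Agent.MP1d7ced
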