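import Mathlib
import Pool.Agent.Lib.MP_1d7ced_al.Words

/-! Word-length functions and the concatenation inequality in free groups. -/

namespace Pool.Agent.MP1d7ced

open FreeGroup

/-- Abstract properties of the word length with respect to a finite symmetric generating set. -/
structure Len (G : Type*) [Group G] where
  ell : G → ℕ
  one : ell 1 = 0
  eq_one : ∀ g, ell g = 0 → g = 1
  inv : ∀ g, ell g⁻¹ = ell g
  mul_le : ∀ g h, ell (g * h) ≤ ell g + ell h
  finite_ball : ∀ n, {g | ell g ≤ n}.Finite
  geod : ∀ g, g ≠ 1 → ∃ s h, g = s * h ∧ ell s = 1 ∧ ell h + 1 = ell g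

namespace Len

variable {G : Type*} [Group G] (L : Len G)

lemma exists_list (g : G) : ∃ l : List G, (∀ s ∈ l, L.ell s = 1) ∧ l.prod = g ∧ l.length = L.ell g := by
  obtain ⟨n, hn⟩ : ∃ n, L.ell g = n := ⟨_, rfl⟩
  induction n generalizing g with
  | zero => exact ⟨[], by simp, by simp [L.eq_one g hn], by simp [hn]⟩
  | succ n ih =>
    have hg : g ≠ 1 := by rintro rfl; rw [L.one] at hn; omega
    obtain ⟨s, h, hsh, hs, hh⟩ := L.geod g hg
    obtain ⟨l, h1, h2, h3⟩ := ih h (by omega)
    refine ⟨s :: l, ?_, ?_, ?_⟩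
    · intro t ht
      rcases List.mem_cons.1 ht with rfl | ht
      · exact hs
      · exact h1 t ht
    · rw [List.prod_cons, h2, hsh]
    · rw [List.length_cons, h3, hh]

lemma ell_list_prod_le (l : List G) (h : ∀ s ∈ l, L.ell s = 1) : L.ell l.prod ≤ l.length := by
  induction l with
  | nil => simp [L.one]
  | cons s l ih =>
    rw [List.prod_cons, List.length_cons]
    have h1 := L.mul_le s l.prod
    have h2 := ih (fun t ht => h t (List.mem_cons_of_mem _ ht))
    have h3 := h s (by simp)
    omega

/-- any element splits geodesically at any radius -/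
lemma split (g : G) (m : ℕ) (hm : m ≤ L.ell g) :
    ∃ x y, g = x * y ∧ L.ell x = m ∧ L.ell y = L.ell g - m := by
  obtain ⟨l, h1, h2, h3⟩ := L.exists_list g
  have hx := L.ell_list_prod_le (l.take m) (fun s hs => h1 s (List.mem_of_mem_take hs))
  have hy := L.ell_list_prod_le (l.drop m) (fun s hs => h1 s (List.mem_of_mem_drop hs))
  have hxy : (l.take m).prod * (l.drop m).prod = g := by
    rw [← List.prod_append, List.take_append_drop, h2]
  have h4 := L.mul_le (l.take m).prod (l.drop m).prod
  rw [hxy] at h4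
  rw [List.length_take] at hx
  rw [List.length_drop] at hy
  refine ⟨_, _, hxy.symm, ?_, ?_⟩ <;> omega

end Len

section concat

variable {X : Type*} [DecidableEq X] [Finite X] (L : Len (FreeGroup X))

lemma finite_norm_le (n : ℕ) : {g : FreeGroup X | g.norm ≤ n}.Finite := by
  have h : (FreeGroup.toWord ⁻¹' {l : List (X × Bool) | l.length ≤ n}).Finite :=
    Set.Finite.preimage (FreeGroup.toWord_injective.injOn) (List.finite_length_le _ n)
  exact h

omit [Finite X] in
lemma exists_norm_bound : ∃ lam, ∀ s : FreeGroup X, L.ell s ≤ 1 → s.norm ≤ lam := by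
  obtain ⟨lam, hl⟩ := ((L.finite_ball 1).image FreeGroup.norm).bddAbove
  exact ⟨lam, fun s hs => hl ⟨s, hs, rfl⟩⟩

lemma exists_ell_bound (n : ℕ) : ∃ c, ∀ g : FreeGroup X, g.norm ≤ n → L.ell g ≤ c := by
  obtain ⟨c, hc⟩ := ((finite_norm_le (X := X) n).image L.ell).bddAbove
  exact ⟨c, fun s hs => hc ⟨s, hs, rfl⟩⟩

/-- concatenation without cancellation is almost additive for any word length -/
theorem exists_concat : ∃ K, ∀ x y : List (X × Bool), FreeGroup.IsReduced (x ++ y) →
    L.ell (mk x) + L.ell (mk y) ≤ L.ell (mk (x ++ y)) + K := by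
  classical
  obtain ⟨lam, hlam⟩ := exists_norm_bound L
  obtain ⟨c, hc⟩ := exists_ell_bound L lam
  refine ⟨2 * c, fun x y hxy => ?_⟩
  rcases eq_or_ne x [] with rfl | hx
  · rw [← one_eq_mk, L.one]; simp
  obtain ⟨l, h1, h2, h3⟩ := L.exists_list (mk (x ++ y))
  let P : ℕ → Prop := fun j => x <+: (l.take j).prod.toWord
  have hPm : ∃ j, P j := by
    refine ⟨l.length, ?_⟩
    show x <+: (l.take l.length).prod.toWord
    rw [List.take_length, h2, toWord_mk_of_isReduced hxy]
    exact List.prefix_append _ _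
  have hP0 : ¬ P 0 := by
    intro h
    have : x <+: ([] : List (X × Bool)) := by simpa [P] using h
    exact hx (List.prefix_nil.1 this)
  obtain ⟨j, hj⟩ : ∃ j, Nat.find hPm = j + 1 := by
    cases h : Nat.find hPm with
    | zero => exact absurd (h ▸ Nat.find_spec hPm) hP0
    | succ j => exact ⟨j, rfl⟩
  have hPj1 : P (j + 1) := hj ▸ Nat.find_spec hPm
  have hPj : ¬ P j := Nat.find_min hPm (by omega)
  have hjl : j < l.length := by
    by_contra hge
    push Not at hge
    apply hPj
    have : P (j + 1) := hPj1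
    simp only [P] at this ⊢
    rw [List.take_of_length_le (by omega)] at this
    rw [List.take_of_length_le (by omega)]
    exact this
  set p := (l.take (j + 1)).prod with hp
  have hp' : (l.take j).prod = p * (l[j])⁻¹ := by
    rw [hp, List.take_succ_eq_append_getElem hjl, List.prod_append]
    simp
  have hsj : L.ell (l[j]) = 1 := h1 _ (List.getElem_mem hjl)
  have hd := norm_le_of_isPrefix (x := x) (p := p) (s := (l[j])⁻¹) hPj1 (by rw [← hp']; exact hPj)
  rw [norm_inv_eq] at hd
  have hd' := hc _ (hd.trans (hlam _ hsj.le))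
  have hpl : L.ell p ≤ j + 1 := by
    have := L.ell_list_prod_le (l.take (j + 1)) (fun s hs => h1 s (List.mem_of_mem_take hs))
    rw [List.length_take, ← hp] at this
    omega
  have hq := L.ell_list_prod_le (l.drop (j + 1)) (fun s hs => h1 s (List.mem_of_mem_drop hs))
  rw [List.length_drop] at hq
  have hpq : p * (l.drop (j + 1)).prod = mk (x ++ y) := by
    rw [hp, ← List.prod_append, List.take_append_drop, h2]
  have ex : mk x = p * ((mk x)⁻¹ * p)⁻¹ := by group
  have ey : mk y = ((mk x)⁻¹ * p) * (l.drop (j + 1)).prod := by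
    rw [mul_assoc, hpq, ← mul_mk]; group
  have h5 : L.ell (mk x) ≤ (j + 1) + c := by
    rw [ex]
    have := L.mul_le p ((mk x)⁻¹ * p)⁻¹
    rw [L.inv] at this
    omega
  have h6 : L.ell (mk y) ≤ c + (l.length - (j + 1)) := by
    rw [ey]
    have := L.mul_le ((mk x)⁻¹ * p) (l.drop (j + 1)).prod
    omega
  omega

end concat

end Pool.Agent.MP1d7ced
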