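import Mathlib

/-! Group-theoretic facts on free groups used for MP_1d7ced_al. -/

namespace Pool.Agent.MP1d7ced

open FreeGroup

section roots

variable {G : Type*} [Group G] [IsMulTorsionFree G]

/-- unique roots: commuting with a power implies commuting -/
lemma commute_of_pow {a b : G} {n : ℕ} (hn : n ≠ 0) (h : Commute (a ^ n) b) : Commute a b := by
  have h1 : (b * a * b⁻¹) ^ n = a ^ n := by
    rw [conj_pow, ← h.eq, mul_inv_cancel_right]
  have h2 : b * a * b⁻¹ = a := IsMulTorsionFree.pow_left_injective hn h1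
  have h3 : b * a = a * b := by
    calc b * a = b * a * b⁻¹ * b := by group
      _ = a * b := by rw [h2]
  exact h3.symm

lemma commute_of_zpow {a b : G} {n : ℤ} (hn : n ≠ 0) (h : Commute (a ^ n) b) : Commute a b := by
  have hn' : n.natAbs ≠ 0 := by simpa using hn
  apply commute_of_pow hn'
  rcases Int.natAbs_eq n with h0 | h0
  · rw [h0, zpow_natCast] at h; exact h
  · rw [h0, zpow_neg, zpow_natCast] at h
    exact (Commute.inv_left_iff).1 h

lemma zpow_inj_of_ne_one {a : G} (ha : a ≠ 1) {k l : ℤ} (h : a ^ k = a ^ l) : k = l := by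
  by_contra hne
  have h0 : k - l ≠ 0 := sub_ne_zero.2 hne
  have h1 : a ^ (k - l) = 1 := by rw [zpow_sub, h, mul_inv_cancel]
  have h2 : a ^ (k - l).natAbs = 1 := by
    rcases Int.natAbs_eq (k - l) with h3 | h3
    · rw [h3, zpow_natCast] at h1; exact h1
    · rw [h3, zpow_neg, zpow_natCast, inv_eq_one] at h1; exact h1
  apply ha
  have h3 : (k - l).natAbs ≠ 0 := by simpa using h0
  exact IsMulTorsionFree.pow_left_injective h3 (by simpa using h2)

lemma pow_ne_one' {a : G} (ha : a ≠ 1) {n : ℕ} (hn : n ≠ 0) : a ^ n ≠ 1 := by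
  intro h
  apply ha
  exact IsMulTorsionFree.pow_left_injective hn (by simpa using h)

end roots

section cyclic

universe u
variable {F : Type u} [Group F] [IsFreeGroup F]

lemma isMulTorsionFree_of_isFreeGroup : IsMulTorsionFree F :=
  Function.Injective.isMulTorsionFree (IsFreeGroup.toFreeGroup F).toMonoidHom
    (IsFreeGroup.toFreeGroup F).injective

lemma cyclic_of_comm_free (hc : ∀ a b : F, a * b = b * a) : ∃ m : F, ∀ a : F, ∃ n : ℤ, a = m ^ n := by
  classical
  have hsub : Subsingleton (IsFreeGroup.Generators F) := by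
    constructor
    intro i j
    by_contra hij
    have h := hc (IsFreeGroup.of i) (IsFreeGroup.of j)
    let f : FreeGroup (IsFreeGroup.Generators F) ≃* F := IsFreeGroup.mulEquiv F
    have e1 : (FreeGroup.of i * FreeGroup.of j : FreeGroup (IsFreeGroup.Generators F)) = FreeGroup.of j * FreeGroup.of i := by
      apply f.injective
      rw [f.map_mul, f.map_mul]
      exact hc _ _
    have e2 := congrArg FreeGroup.toWord e1
    simp [FreeGroup.toWord_mul, FreeGroup.toWord_of, FreeGroup.reduce.cons] at e2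
    simp [hij] at e2
  let f : FreeGroup (IsFreeGroup.Generators F) ≃* F := IsFreeGroup.mulEquiv F
  rcases isEmpty_or_nonempty (IsFreeGroup.Generators F) with hE | ⟨⟨i⟩⟩
  · refine ⟨1, fun a => ⟨0, ?_⟩⟩
    apply f.symm.injective
    exact Subsingleton.elim _ _
  · refine ⟨f (FreeGroup.of i), fun a => ?_⟩
    have key : ∀ w : FreeGroup (IsFreeGroup.Generators F), ∃ n : ℤ, w = (FreeGroup.of i) ^ n := by
      intro w
      induction w using FreeGroup.induction_on with
      | C1 => exact ⟨0, by simp⟩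
      | of j => exact ⟨1, by rw [Subsingleton.elim j i]; simp⟩
      | inv_of j _ => exact ⟨-1, by rw [Subsingleton.elim j i]; simp⟩
      | mul x y hx hy =>
        obtain ⟨n, rfl⟩ := hx
        obtain ⟨m, rfl⟩ := hy
        exact ⟨n + m, by rw [zpow_add]⟩
    obtain ⟨n, hn⟩ := key (f.symm a)
    refine ⟨n, ?_⟩
    have : a = f (f.symm a) := by simp
    rw [this, hn, map_zpow]

/-- a commutative subgroup of a free group is cyclic -/
lemma cyclic_subgroup (K : Subgroup F) (hc : ∀ a ∈ K, ∀ b ∈ K, Commute a b) :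
    ∃ m ∈ K, ∀ a ∈ K, ∃ n : ℤ, a = m ^ n := by
  obtain ⟨m, hm⟩ := cyclic_of_comm_free (F := K) (fun a b => Subtype.ext (hc a a.2 b b.2).eq)
  refine ⟨m, m.2, fun a ha => ?_⟩
  obtain ⟨n, hn⟩ := hm ⟨a, ha⟩
  exact ⟨n, by simpa using congrArg Subtype.val hn⟩

lemma common_root {a b : F} (h : Commute a b) : ∃ u : F, (∃ i : ℤ, a = u ^ i) ∧ ∃ j : ℤ, b = u ^ j := by
  have hc : ∀ x ∈ Subgroup.closure ({a, b} : Set F), ∀ y ∈ Subgroup.closure ({a, b} : Set F), Commute x y := by
    intro x hx y hy
    have hcomm : ∀ x ∈ ({a, b} : Set F), ∀ y ∈ ({a, b} : Set F), x * y = y * x := by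
      intro x hx y hy
      rcases hx with rfl | rfl <;> rcases hy with rfl | rfl
      · rfl
      · exact h.eq
      · exact h.eq.symm
      · rfl
    induction hx, hy using Subgroup.closure_induction₂ with
    | mem x y hx hy => exact hcomm x hx y hy
    | one_left x _ => exact Commute.one_left _
    | one_right x _ => exact Commute.one_right _
    | mul_left x y z _ _ _ h1 h2 => exact h1.mul_left h2
    | mul_right x y z _ _ _ h1 h2 => exact h1.mul_right h2
    | inv_left x y _ _ h1 => exact h1.inv_left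
    | inv_right x y _ _ h1 => exact h1.inv_right
  obtain ⟨u, _, hu⟩ := cyclic_subgroup _ hc
  exact ⟨u, hu a (Subgroup.subset_closure (by simp)), hu b (Subgroup.subset_closure (by simp))⟩

/-- commutative transitivity -/
lemma commute_trans {a b c : F} (hb : b ≠ 1) (h1 : Commute a b) (h2 : Commute b c) : Commute a c := by
  have := isMulTorsionFree_of_isFreeGroup (F := F)
  obtain ⟨u, ⟨i, hi⟩, ⟨j, hj⟩⟩ := common_root h1
  obtain ⟨v, ⟨k, hk⟩, ⟨l, hl⟩⟩ := common_root h2
  have hj0 : j ≠ 0 := by
    rintro rfl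
    exact hb (by simpa using hj)
  have huv : Commute (u ^ j) v := by
    rw [← hj, hk]
    exact (Commute.refl v).zpow_left k
  have huv' := commute_of_zpow hj0 huv
  rw [hi, hl]
  exact (huv'.zpow_left i).zpow_right l

/-- In a non-abelian free group, conjugates of `y ≠ 1` by a large subgroup cannot all commute with `x ≠ 1`. -/
lemma exists_not_commute_conj (hnab : ∃ a b : F, ¬ Commute a b) (H : Subgroup F) {M : ℕ} (hM : M ≠ 0)
    (hH : ∀ g : F, g ^ M ∈ H) {x y : F} (hx : x ≠ 1) (hy : y ≠ 1) :
    ∃ t ∈ H, ¬ Commute x (t * y * t⁻¹) := by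
  have htf := isMulTorsionFree_of_isFreeGroup (F := F)
  by_contra hcon
  push Not at hcon
  have hxy : Commute x y := by simpa using hcon 1 H.one_mem
  have hconj1 : ∀ t : F, t * y * t⁻¹ ≠ 1 := by
    intro t h
    apply hy
    have : y = t⁻¹ * (t * y * t⁻¹) * t := by group
    rw [this, h]; group
  have hyt : ∀ t ∈ H, Commute y (t * y * t⁻¹) := fun t ht => commute_trans hx hxy.symm (hcon t ht)
  -- centralizer of y
  obtain ⟨m, hmC, hm⟩ := cyclic_subgroup (Subgroup.centralizer ({y} : Set F)) (by
    intro a ha b hb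
    rw [Subgroup.mem_centralizer_singleton_iff] at ha hb
    exact commute_trans hy ha hb.symm)
  have hmy : Commute m y := Subgroup.mem_centralizer_singleton_iff.1 hmC
  have hm1 : m ≠ 1 := by
    rintro rfl
    obtain ⟨n, hn⟩ := hm y (Subgroup.mem_centralizer_singleton_iff.2 rfl)
    exact hy (by simpa using hn)
  have hcent : ∀ t ∈ H, Commute t m := by
    intro t ht
    have hin : ∀ t ∈ H, ∃ n : ℤ, t * m * t⁻¹ = m ^ n := by
      intro t ht
      apply hm
      rw [Subgroup.mem_centralizer_singleton_iff]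
      have e1 : Commute (t * m * t⁻¹) (t * y * t⁻¹) := by
        have := congrArg (fun z => t * z * t⁻¹) hmy.eq
        show t * m * t⁻¹ * (t * y * t⁻¹) = t * y * t⁻¹ * (t * m * t⁻¹)
        simpa [mul_assoc] using this
      exact commute_trans (hconj1 t) e1 (hyt t ht).symm
    obtain ⟨k, hk⟩ := hin t ht
    obtain ⟨l, hl⟩ := hin t⁻¹ (H.inv_mem ht)
    have e : m ^ (k * l) = m ^ (1 : ℤ) := by
      have h1 : t * (t⁻¹ * m * t⁻¹⁻¹) * t⁻¹ = m := by group
      rw [hl] at h1
      rw [← conj_zpow, hk, ← zpow_mul] at h1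
      simpa using h1
    have hkl : k * l = 1 := zpow_inj_of_ne_one hm1 e
    have hk2 : k * k = 1 := by
      rcases Int.eq_one_or_neg_one_of_mul_eq_one hkl with h | h <;> rw [h] <;> norm_num
    have h2 : t ^ 2 * m * (t ^ 2)⁻¹ = m := by
      have : t ^ 2 * m * (t ^ 2)⁻¹ = t * (t * m * t⁻¹) * t⁻¹ := by
        rw [pow_two]; group
      rw [this, hk, ← conj_zpow, hk, ← zpow_mul, hk2, zpow_one]
    have h3 : Commute (t ^ 2) m := by
      have h4 := congrArg (fun z => z * t ^ 2) h2
      simp only [inv_mul_cancel_right] at h4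
      exact h4
    exact commute_of_pow two_ne_zero h3
  have hcent2 : ∀ g : F, Commute g m := fun g => commute_of_pow hM (hcent _ (hH g))
  obtain ⟨a, b, hab⟩ := hnab
  exact hab (commute_trans hm1 (hcent2 a) (hcent2 b).symm)

end cyclic

end Pool.Agent.MP1d7ced
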