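import Mathlib
import Pool.Agent.Lib.MP_1d7ced_al.FreeLemmas

/-! Abstract faithful self-similar actions on the tree of words. -/

namespace Pool.Agent.MP1d7ced

/-- A faithful self-similar action of `G` on the words over `A`: `sec g u` is the section of `g` at `u`. -/
structure SelfSim (G : Type*) (A : Type*) [Group G] where
  act : G → List A → List A
  sec : G → List A → G
  act_one : ∀ u, act 1 u = u
  act_mul : ∀ g h u, act (g * h) u = act g (act h u)
  act_append : ∀ g u v, act g (u ++ v) = act g u ++ act (sec g u) v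
  length_act : ∀ g u, (act g u).length = u.length
  faithful : ∀ g, (∀ u, act g u = u) → g = 1

namespace SelfSim

variable {G A : Type*} [Group G] (σ : SelfSim G A)

lemma act_inv_act (g : G) (u : List A) : σ.act g⁻¹ (σ.act g u) = u := by
  rw [← σ.act_mul, inv_mul_cancel, σ.act_one]

lemma act_act_inv (g : G) (u : List A) : σ.act g (σ.act g⁻¹ u) = u := by
  rw [← σ.act_mul, mul_inv_cancel, σ.act_one]

lemma act_injective (g : G) : Function.Injective (σ.act g) := by
  intro u v h
  rw [← σ.act_inv_act g u, h, σ.act_inv_act]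

lemma ext' {g h : G} (H : ∀ u, σ.act g u = σ.act h u) : g = h := by
  have : h⁻¹ * g = 1 := σ.faithful _ fun u => by rw [σ.act_mul, H, σ.act_inv_act]
  rw [inv_mul_eq_one] at this
  exact this.symm

lemma act_nil (g : G) : σ.act g [] = [] := by
  have := σ.length_act g []
  simpa using this

lemma sec_nil (g : G) : σ.sec g [] = g := by
  apply σ.ext'
  intro u
  have := σ.act_append g [] u
  rw [σ.act_nil] at this
  simpa using this.symm

lemma sec_mul (g h : G) (u : List A) : σ.sec (g * h) u = σ.sec g (σ.act h u) * σ.sec h u := by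
  apply σ.ext'
  intro v
  have h1 := σ.act_append (g * h) u v
  rw [σ.act_mul, σ.act_mul, σ.act_append h, σ.act_append g] at h1
  rw [σ.act_mul]
  exact (List.append_cancel_left h1).symm

lemma sec_one (u : List A) : σ.sec 1 u = 1 := by
  have := σ.sec_mul 1 1 u
  rw [mul_one, σ.act_one] at this
  simpa using this

lemma sec_append (g : G) (u v : List A) : σ.sec g (u ++ v) = σ.sec (σ.sec g u) v := by
  apply σ.ext'
  intro w
  have h1 := σ.act_append g (u ++ v) w
  rw [List.append_assoc, σ.act_append g u (v ++ w), σ.act_append g u v, σ.act_append (σ.sec g u) v w,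
    List.append_assoc] at h1
  exact (List.append_cancel_left (List.append_cancel_left h1)).symm

lemma sec_inv (g : G) (u : List A) : σ.sec g⁻¹ (σ.act g u) = (σ.sec g u)⁻¹ := by
  have := σ.sec_mul g⁻¹ g u
  rw [inv_mul_cancel, σ.sec_one] at this
  exact (eq_inv_of_mul_eq_one_left this.symm)

/-- action on level `n` -/
def levelHom (n : ℕ) : G →* Equiv.Perm {u : List A // u.length = n} where
  toFun g :=
    { toFun := fun u => ⟨σ.act g u, by rw [σ.length_act, u.2]⟩
      invFun := fun u => ⟨σ.act g⁻¹ u, by rw [σ.length_act, u.2]⟩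
      left_inv := fun u => Subtype.ext (σ.act_inv_act g u)
      right_inv := fun u => Subtype.ext (σ.act_act_inv g u) }
  map_one' := by ext u : 2; exact σ.act_one _
  map_mul' := fun g h => by ext u : 2; exact σ.act_mul _ _ _

lemma mem_ker_levelHom {n : ℕ} {g : G} :
    g ∈ (σ.levelHom n).ker ↔ ∀ u : List A, u.length = n → σ.act g u = u := by
  rw [MonoidHom.mem_ker]
  constructor
  · intro h u hu
    have := DFunLike.congr_fun h ⟨u, hu⟩
    exact congrArg Subtype.val this
  · intro h
    ext u : 2
    exact h u.1 u.2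

instance finite_level [Finite A] (n : ℕ) : Finite {u : List A // u.length = n} :=
  (List.finite_length_eq A n).to_subtype

/-- a uniform exponent killing level `n` -/
lemma exists_level_exponent [Finite A] (n : ℕ) : ∃ M : ℕ, M ≠ 0 ∧ ∀ g : G, g ^ M ∈ (σ.levelHom n).ker := by
  refine ⟨Nat.card (Equiv.Perm {u : List A // u.length = n}), Nat.card_pos.ne', fun g => ?_⟩
  rw [MonoidHom.mem_ker, map_pow]
  exact pow_card_eq_one'

/-- level transitivity -/
def Transitive : Prop := ∀ u v : List A, u.length = v.length → ∃ g, σ.act g u = v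

end SelfSim

universe u v

/-- Step A: for a free non-abelian level-transitive group, sections are injective on stabilizers. -/
theorem kernel_trivial {G : Type u} {A : Type v} [Group G] [IsFreeGroup G] [Finite A]
    (σ : SelfSim G A) (hnab : ∃ a b : G, ¬ Commute a b) (htr : σ.Transitive)
    {g : G} {u : List A} (h1 : σ.act g u = u) (h2 : σ.sec g u = 1) : g = 1 := by
  classical
  have htf := isMulTorsionFree_of_isFreeGroup (F := G)
  by_contra hg
  obtain ⟨n, hn⟩ : ∃ n, u.length = n := ⟨_, rfl⟩
  obtain ⟨M, hM0, hM⟩ := σ.exists_level_exponent n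
  have hsecmul : ∀ k l : G, l ∈ (σ.levelHom n).ker → ∀ w : List A, w.length = n →
      σ.sec (k * l) w = σ.sec k w * σ.sec l w := by
    intro k l hl w hw
    rw [σ.sec_mul, σ.mem_ker_levelHom.1 hl w hw]
  have hsecinv : ∀ k : G, k ∈ (σ.levelHom n).ker → ∀ w : List A, w.length = n →
      σ.sec k⁻¹ w = (σ.sec k w)⁻¹ := by
    intro k hk w hw
    have := σ.sec_inv k w
    rwa [σ.mem_ker_levelHom.1 hk w hw] at this
  have hsecpow : ∀ k : G, ∀ w : List A, σ.act k w = w → σ.sec k w = 1 → ∀ m : ℕ, σ.sec (k ^ m) w = 1 ∧ σ.act (k ^ m) w = w := by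
    intro k w hk hk1 m
    induction m with
    | zero => simp [σ.sec_one, σ.act_one]
    | succ m ih =>
      rw [pow_succ, σ.sec_mul, σ.act_mul, hk, hk1, ih.1, ih.2]
      simp
  have key : ∀ F : Finset {w : List A // w.length = n}, ∃ k : G, k ≠ 1 ∧ k ∈ (σ.levelHom n).ker ∧
      ∀ w ∈ F, σ.sec k w.1 = 1 := by
    intro F
    induction F using Finset.induction_on with
    | empty => exact ⟨g ^ M, pow_ne_one' hg hM0, hM g, by simp⟩
    | insert w F hw ih =>
      obtain ⟨k, hk1, hkker, hkF⟩ := ih
      obtain ⟨t0, ht0⟩ := htr u w.1 (by rw [hn, w.2])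
      have hact : σ.act (t0 * g * t0⁻¹) w.1 = w.1 := by
        rw [σ.act_mul, σ.act_mul, ← ht0, σ.act_inv_act, h1]
      have hsec : σ.sec (t0 * g * t0⁻¹) w.1 = 1 := by
        rw [σ.sec_mul, σ.sec_mul, ← ht0, σ.act_inv_act, h1, h2, σ.sec_inv, mul_one, mul_inv_cancel]
      have hne : t0 * g * t0⁻¹ ≠ 1 := by
        intro h
        apply hg
        have : g = t0⁻¹ * (t0 * g * t0⁻¹) * t0 := by group
        rw [this, h]; group
      obtain ⟨hs, -⟩ := hsecpow _ _ hact hsec M
      set h := (t0 * g * t0⁻¹) ^ M with hh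
      have hh1 : h ≠ 1 := pow_ne_one' hne hM0
      have hhker : h ∈ (σ.levelHom n).ker := hM _
      obtain ⟨t, ht, hcomm⟩ := exists_not_commute_conj hnab (σ.levelHom n).ker hM0 hM hk1 hh1
      have hcker : t * h * t⁻¹ ∈ (σ.levelHom n).ker :=
        mul_mem (mul_mem ht hhker) (inv_mem ht)
      refine ⟨k * (t * h * t⁻¹) * k⁻¹ * (t * h * t⁻¹)⁻¹, ?_, ?_, ?_⟩
      · intro h0
        apply hcomm
        show k * (t * h * t⁻¹) = (t * h * t⁻¹) * k
        have h3 : k * (t * h * t⁻¹) * k⁻¹ = t * h * t⁻¹ := by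
          rw [mul_inv_eq_one] at h0; exact h0
        calc k * (t * h * t⁻¹) = (k * (t * h * t⁻¹) * k⁻¹) * k := by group
          _ = _ := by rw [h3]
      · exact mul_mem (mul_mem (mul_mem hkker hcker) (inv_mem hkker)) (inv_mem hcker)
      · intro w' hw'
        have e : σ.sec (k * (t * h * t⁻¹) * k⁻¹ * (t * h * t⁻¹)⁻¹) w'.1
            = σ.sec k w'.1 * σ.sec (t * h * t⁻¹) w'.1 * (σ.sec k w'.1)⁻¹ * (σ.sec (t * h * t⁻¹) w'.1)⁻¹ := by
          rw [hsecmul _ _ (inv_mem hcker) _ w'.2, hsecmul _ _ (inv_mem hkker) _ w'.2,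
            hsecmul _ _ hcker _ w'.2, hsecinv _ hkker _ w'.2, hsecinv _ hcker _ w'.2]
        rw [e]
        rcases Finset.mem_insert.1 hw' with rfl | hw'
        · have : σ.sec (t * h * t⁻¹) w'.1 = 1 := by
            rw [hsecmul _ _ (inv_mem ht) _ w'.2, hsecmul _ _ hhker _ w'.2, hsecinv _ ht _ w'.2, hs]
            simp
          rw [this]; simp
        · rw [hkF w' hw']; simp
  have : Fintype {w : List A // w.length = n} := Fintype.ofFinite _
  obtain ⟨k, hk1, hkker, hk⟩ := key Finset.univ
  apply hk1
  apply σ.faithful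
  intro z
  have hall : ∀ w : List A, w.length = n → ∀ z', σ.act k (w ++ z') = w ++ z' := by
    intro w hw z'
    rw [σ.act_append, σ.mem_ker_levelHom.1 hkker w hw, hk ⟨w, hw⟩ (Finset.mem_univ _), σ.act_one]
  rcases le_or_gt n z.length with hz | hz
  · have := hall (z.take n) (by simp [hz]) (z.drop n)
    simpa using this
  · -- extend z
    have hne : u ≠ [] := by
      rintro rfl
      simp at hn
      omega
    obtain ⟨a, u', rfl⟩ := List.exists_cons_of_ne_nil hne
    have := hall (z ++ List.replicate (n - z.length) a) (by simp; omega) []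
    simp only [List.append_nil] at this
    rw [σ.act_append] at this
    exact (List.append_inj this (by rw [σ.length_act])).1

end Pool.Agent.MP1d7ced
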