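import Mathlib
import Pool.Agent.Lib.MP_1d7ced_al.SelfSim
import Pool.Agent.Lib.MP_1d7ced_al.Length

/-! Markers: universal words that shorten sections at every vertex of a level. -/

namespace Pool.Agent.MP1d7ced

open FreeGroup

section letters

variable {X : Type*} [Nontrivial X]

lemma exists_letter_aux (a? b? : Option (X × Bool)) :
    ∃ c : X × Bool, (∀ a ∈ a?, a.1 = c.1 → a.2 = c.2) ∧ (∀ b ∈ b?, c.1 = b.1 → c.2 = b.2) := by
  cases a? with
  | none =>
    cases b? with
    | none =>
      obtain ⟨x, -⟩ := exists_pair_ne X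
      exact ⟨(x, true), by simp, by simp⟩
    | some b => exact ⟨b, by simp, by simp⟩
  | some a =>
    cases b? with
    | none => exact ⟨a, by simp, by simp⟩
    | some b =>
      by_cases h : a.1 = b.1 → a.2 = b.2
      · exact ⟨a, by simp, by simpa using h⟩
      · push Not at h
        obtain ⟨x, hx⟩ := exists_ne a.1
        refine ⟨(x, true), ?_, ?_⟩
        · intro a' ha'
          simp only [Option.mem_def, Option.some.injEq] at ha'
          subst ha'
          intro h'
          exact absurd h'.symm hx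
        · intro b' hb'
          simp only [Option.mem_def, Option.some.injEq] at hb'
          subst hb'
          intro h'
          exact absurd (h'.trans h.1.symm) hx

lemma exists_letter {w v : List (X × Bool)} (hw : FreeGroup.IsReduced w) (hv : FreeGroup.IsReduced v) :
    ∃ c : X × Bool, ∀ M, M ≠ 0 → FreeGroup.IsReduced (w ++ List.replicate M c ++ v) := by
  obtain ⟨c, h1, h2⟩ := exists_letter_aux w.getLast? v.head?
  refine ⟨c, fun M hM => ?_⟩
  have hrep : FreeGroup.IsReduced (List.replicate M c) := by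
    unfold FreeGroup.IsReduced
    exact List.isChain_replicate_of_rel M (fun _ => rfl)
  have hw' : FreeGroup.IsReduced (w ++ List.replicate M c) := by
    rw [isReduced_append_iff]
    refine ⟨hw, hrep, ?_⟩
    intro a ha b hb
    rw [List.head?_replicate, if_neg hM] at hb
    simp only [Option.mem_def, Option.some.injEq] at hb
    subst hb
    exact h1 a ha
  rw [isReduced_append_iff]
  refine ⟨hw', hv, ?_⟩
  intro a ha b hb
  rw [List.getLast?_append, List.getLast?_replicate, if_neg hM] at ha
  simp only [Option.some_or, Option.mem_def, Option.some.injEq] at ha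
  subst ha
  exact h2 b hb

end letters

section red

universe u v

variable {X : Type u} [DecidableEq X] {A : Type v} (σ : SelfSim (FreeGroup X) A) (L : Len (FreeGroup X))

/-- `Red w u R`: in every reduced context the marker `w` shortens the section based at `u` by `R`, up to `K`. -/
def Red (K : ℕ) (w : List (X × Bool)) (u : List A) (R : ℕ) : Prop :=
  ∀ x y : List (X × Bool), FreeGroup.IsReduced (x ++ w ++ y) →
    L.ell (σ.sec (mk x * mk w) u) + L.ell (mk y) + R ≤ L.ell (mk (x ++ w ++ y)) + K

variable {σ L} {K : ℕ} (hsec : ∀ g u, L.ell (σ.sec g u) ≤ L.ell g)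
  (hK : ∀ x y : List (X × Bool), FreeGroup.IsReduced (x ++ y) →
    L.ell (mk x) + L.ell (mk y) ≤ L.ell (mk (x ++ y)) + K)

omit [DecidableEq X] in
include hsec hK in
lemma red_zero (w : List (X × Bool)) (u : List A) : Red σ L K w u 0 := by
  intro x y hxy
  have h1 := hsec (mk x * mk w) u
  have h2 := hK (x ++ w) y hxy
  have e : (mk (x ++ w) : FreeGroup X) = mk x * mk w := mul_mk.symm
  rw [e] at h2
  omega

omit [DecidableEq X] in
lemma red_extend {w : List (X × Bool)} {u : List A} {R : ℕ} (h : Red σ L K w u R) (z : List (X × Bool)) :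
    Red σ L K (z ++ w) u R := by
  intro x y hxy
  have e : x ++ (z ++ w) ++ y = (x ++ z) ++ w ++ y := by simp
  have := h (x ++ z) y (by rw [← e]; exact hxy)
  rw [e]
  have e2 : (mk x * mk (z ++ w) : FreeGroup X) = mk (x ++ z) * mk w := by
    simp only [mul_mk, List.append_assoc]
  rw [e2]
  exact this

omit [DecidableEq X] in
include hsec hK in
lemma red_gain {γ t w : List (X × Bool)} {u v : List A} {R : ℕ} (h : Red σ L K w u R)
    (hγ : L.ell (σ.sec (mk γ) v) + 2 * K + 1 ≤ L.ell (mk γ)) (hv : σ.act (mk t * mk w) u = v) :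
    Red σ L K (γ ++ t ++ w) u (R + 1) := by
  intro x y hxy
  have e0 : x ++ (γ ++ t ++ w) ++ y = x ++ (γ ++ (t ++ w ++ y)) := by simp
  rw [e0] at hxy ⊢
  have r1 : FreeGroup.IsReduced (γ ++ (t ++ w ++ y)) := (isReduced_append_iff.1 hxy).2.1
  have r2 : FreeGroup.IsReduced (t ++ w ++ y) := (isReduced_append_iff.1 r1).2.1
  have h1 := hK x _ hxy
  have h2 := hK γ _ r1
  have h3 := h t y r2
  have e1 : (mk x * mk (γ ++ t ++ w) : FreeGroup X) = mk x * (mk γ * (mk t * mk w)) := by
    simp only [mul_mk, List.append_assoc]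
  rw [e1, σ.sec_mul, σ.sec_mul, hv]
  have h4 := L.mul_le (σ.sec (mk x) (σ.act (mk γ * (mk t * mk w)) u))
    (σ.sec (mk γ) v * σ.sec (mk t * mk w) u)
  have h5 := L.mul_le (σ.sec (mk γ) v) (σ.sec (mk t * mk w) u)
  have h6 := hsec (mk x) (σ.act (mk γ * (mk t * mk w)) u)
  omega

omit [DecidableEq X] in
lemma connector [Nontrivial X] [Finite A] (htr : σ.Transitive) {γ w : List (X × Bool)} (hγ : FreeGroup.IsReduced γ)
    (hw : FreeGroup.IsReduced w) {n : ℕ} {p v : List A} (hp : p.length = n) (hv : v.length = n) :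
    ∃ t, FreeGroup.IsReduced (γ ++ t ++ w) ∧ σ.act (mk t) p = v := by
  classical
  obtain ⟨M, hM0, hM⟩ := σ.exists_level_exponent n
  obtain ⟨g0, hg0⟩ := htr p v (by rw [hp, hv])
  have htriv : ∀ c : X × Bool, ∀ q : List A, q.length = n → σ.act (mk (List.replicate M c)) q = q := by
    intro c q hq
    have e : (mk (List.replicate M c) : FreeGroup X) = (mk [c]) ^ M := by
      rw [pow_mk]
      congr 1
      induction M with
      | zero => rfl
      | succ m ih => simp [List.replicate_succ]
    rw [e]
    exact σ.mem_ker_levelHom.1 (hM _) q hq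
  obtain ⟨s1, hs1⟩ := exists_letter hγ (isReduced_toWord (x := g0))
  have h1 := hs1 M hM0
  have ht1 : FreeGroup.IsReduced (List.replicate M s1 ++ g0.toWord) := by
    rw [List.append_assoc] at h1
    exact (isReduced_append_iff.1 h1).2.1
  obtain ⟨s2, hs2⟩ := exists_letter ht1 hw
  have h2 := hs2 M hM0
  refine ⟨List.replicate M s1 ++ g0.toWord ++ List.replicate M s2, ?_, ?_⟩
  · have h3 : FreeGroup.IsReduced (γ ++ (List.replicate M s1 ++ g0.toWord) ++ (List.replicate M s2 ++ w)) := by
      apply IsReduced.append_overlap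
      · rw [← List.append_assoc]; exact h1
      · rw [← List.append_assoc]; exact h2
      · simp [hM0]
    have e : γ ++ (List.replicate M s1 ++ g0.toWord ++ List.replicate M s2) ++ w
        = γ ++ (List.replicate M s1 ++ g0.toWord) ++ (List.replicate M s2 ++ w) := by simp
    rw [e]; exact h3
  · rw [← mul_mk, ← mul_mk, mk_toWord, σ.act_mul, σ.act_mul, htriv s2 p hp, hg0, htriv s1 v hv]

include hsec hK in
/-- existence of universal markers once a single section loses more than `2K` -/
theorem exists_marker [Nontrivial X] [Finite A] (htr : σ.Transitive) {n : ℕ} {v : List A}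
    (hv : v.length = n) {g : FreeGroup X} (hg : L.ell (σ.sec g v) + 2 * K + 1 ≤ L.ell g) (R : ℕ) :
    ∃ w : List (X × Bool), w ≠ [] ∧ FreeGroup.IsReduced w ∧ ∀ u : List A, u.length = n → Red σ L K w u R := by
  classical
  induction R with
  | zero =>
    obtain ⟨x, -⟩ := exists_pair_ne X
    exact ⟨[(x, true)], by simp, IsReduced.singleton, fun u _ => red_zero hsec hK _ _⟩
  | succ R ih =>
    obtain ⟨w0, hw0, hw0r, hw0R⟩ := ih
    have key : ∀ F : Finset {u : List A // u.length = n}, ∃ w : List (X × Bool), w ≠ [] ∧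
        FreeGroup.IsReduced w ∧ (∀ u : List A, u.length = n → Red σ L K w u R) ∧
        ∀ u ∈ F, Red σ L K w u.1 (R + 1) := by
      intro F
      induction F using Finset.induction_on with
      | empty => exact ⟨w0, hw0, hw0r, hw0R, by simp⟩
      | insert u0 F hu0 ihF =>
        obtain ⟨w, hw, hwr, hwR, hwF⟩ := ihF
        have hp : (σ.act (mk w) u0.1).length = n := by rw [σ.length_act, u0.2]
        obtain ⟨t, ht, htv⟩ := connector (σ := σ) htr (isReduced_toWord (x := g)) hwr hp hv
        refine ⟨g.toWord ++ t ++ w, by simp [hw], ht, fun u hu => red_extend (hwR u hu) _, ?_⟩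
        intro u hu
        rcases Finset.mem_insert.1 hu with rfl | hu
        · apply red_gain hsec hK (hwR u.1 u.2) (v := v)
          · rw [mk_toWord]; exact hg
          · rw [σ.act_mul]; exact htv
        · exact red_extend (hwF u hu) _
    have : Fintype {u : List A // u.length = n} := Fintype.ofFinite _
    obtain ⟨w, hw, hwr, -, hwF⟩ := key Finset.univ
    exact ⟨w, hw, hwr, fun u hu => hwF ⟨u, hu⟩ (Finset.mem_univ _)⟩

/-- elements containing the marker have much shorter sections -/
lemma sec_add_le_of_marker {n R : ℕ} {w : List (X × Bool)}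
    (hw : ∀ u : List A, u.length = n → Red σ L K w u (R + K)) {v : List A} (hv : v.length = n)
    (hsec : ∀ g u, L.ell (σ.sec g u) ≤ L.ell g)
    {g : FreeGroup X} (hg : w <:+: g.toWord) : L.ell (σ.sec g v) + R ≤ L.ell g := by
  obtain ⟨x, y, hxy⟩ := hg
  have hr : FreeGroup.IsReduced (x ++ w ++ y) := by rw [hxy]; exact isReduced_toWord
  have e : g = mk x * mk w * mk y := by
    rw [mul_mk, mul_mk, hxy, mk_toWord]
  have h1 := hw (σ.act (mk y) v) (by rw [σ.length_act, hv]) x y hr
  have h2 : L.ell (mk (x ++ w ++ y)) = L.ell g := by rw [hxy, mk_toWord]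
  have h3 : σ.sec g v = σ.sec (mk x * mk w) (σ.act (mk y) v) * σ.sec (mk y) v := by
    rw [e, σ.sec_mul]
  have h4 := L.mul_le (σ.sec (mk x * mk w) (σ.act (mk y) v)) (σ.sec (mk y) v)
  have h5 := hsec (mk y) v
  rw [h3]
  omega

end red

end Pool.Agent.MP1d7ced
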