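import Mathlib
import Pool.Agent.Lib.MP_1d7ced_al.Marker

/-! Growth series of a word length, and the marker inequality. -/

namespace Pool.Agent.MP1d7ced

open FreeGroup
open scoped ENNReal NNReal

section series

variable {G : Type*} [Group G] (L : Len G)

/-- growth series -/
noncomputable def ser (z : ℝ≥0) : ℝ≥0∞ := ∑' g : G, (z : ℝ≥0∞) ^ L.ell g

lemma ser_mono {z z' : ℝ≥0} (h : z ≤ z') : ser L z ≤ ser L z' := by
  unfold ser
  apply ENNReal.tsum_le_tsum
  intro g
  have : (z : ℝ≥0∞) ≤ z' := by exact_mod_cast h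
  exact pow_le_pow_left' this _

lemma one_le_ser (z : ℝ≥0) : 1 ≤ ser L z := by
  unfold ser
  have h := ENNReal.le_tsum (f := fun g : G => (z : ℝ≥0∞) ^ L.ell g) 1
  simpa [L.one] using h

/-- left lower semicontinuity -/
lemma ser_le_of_forall_lt {z : ℝ≥0} (hz : 0 < z) {B : ℝ≥0∞} (h : ∀ z' < z, ser L z' ≤ B) : ser L z ≤ B := by
  unfold ser
  rw [ENNReal.tsum_eq_iSup_sum]
  apply iSup_le
  intro s
  have hcont : Continuous fun z : ℝ≥0 => ∑ g ∈ s, (z : ℝ≥0∞) ^ L.ell g := by
    refine continuous_finsetSum _ fun g _ => ?_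
    exact (ENNReal.continuous_pow _).comp ENNReal.continuous_coe
  have hclosed : IsClosed {z : ℝ≥0 | ∑ g ∈ s, (z : ℝ≥0∞) ^ L.ell g ≤ B} := isClosed_le hcont continuous_const
  have hsub : Set.Iio z ⊆ {z : ℝ≥0 | ∑ g ∈ s, (z : ℝ≥0∞) ^ L.ell g ≤ B} := by
    intro z' hz'
    exact (ENNReal.sum_le_tsum s).trans (h z' hz')
  have hne : (Set.Iio z).Nonempty := ⟨0, hz⟩
  have := hclosed.closure_subset_iff.2 hsub
  rw [closure_Iio' hne] at this
  exact this (Set.mem_Iic.2 le_rfl)

/-- number of elements of length exactly `n` -/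
noncomputable def sph (n : ℕ) : Finset G := by
  classical
  exact ((L.finite_ball n).subset (fun g (hg : L.ell g = n) => hg.le) : {g | L.ell g = n}.Finite).toFinset

lemma mem_sph {n : ℕ} {g : G} : g ∈ sph L n ↔ L.ell g = n := by
  unfold sph
  simp

noncomputable def ball (n : ℕ) : Finset G := (L.finite_ball n).toFinset

lemma mem_ball {n : ℕ} {g : G} : g ∈ ball L n ↔ L.ell g ≤ n := by
  unfold ball
  simp

/-- submultiplicativity gives convergence -/
lemma ser_lt_top_of {N : ℕ} (z : ℝ≥0) (h : (sph L N).card * z ^ N < 1) : ser L z < ⊤ := by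
  classical
  set ρ : ℝ := (sph L N).card * (z : ℝ) ^ N with hρ
  have hρ1 : ρ < 1 := by
    have : (((sph L N).card * z ^ N : ℝ≥0) : ℝ) < ((1 : ℝ≥0) : ℝ) := by exact_mod_cast h
    simpa [hρ] using this
  have hρ0 : 0 ≤ ρ := by positivity
  set A : ℝ := ∑ g ∈ ball L N, (z : ℝ) ^ L.ell g with hA
  have hA0 : 0 ≤ A := Finset.sum_nonneg fun _ _ => by positivity
  -- splitting map
  have hsplit : ∀ g : G, ∃ p : G × G, N ≤ L.ell g → (g = p.1 * p.2 ∧ L.ell p.1 = N ∧ L.ell p.2 = L.ell g - N) := by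
    intro g
    by_cases hg : N ≤ L.ell g
    · obtain ⟨x, y, h1, h2, h3⟩ := L.split g N hg
      exact ⟨(x, y), fun _ => ⟨h1, h2, h3⟩⟩
    · exact ⟨(1, 1), fun h => absurd h hg⟩
  choose P hP using hsplit
  have key : ∀ m, ∑ g ∈ ball L m, (z : ℝ) ^ L.ell g ≤ A / (1 - ρ) := by
    intro m
    set Fm : ℝ := ∑ g ∈ ball L m, (z : ℝ) ^ L.ell g with hFm
    have hFm0 : 0 ≤ Fm := Finset.sum_nonneg fun _ _ => by positivity
    have h1 : Fm ≤ A + ρ * Fm := by
      have hsub : ball L m ⊆ (ball L N) ∪ ((ball L m).filter (fun g => N ≤ L.ell g)) := by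
        intro g hg
        rw [Finset.mem_union, Finset.mem_filter, mem_ball]
        rcases le_total (L.ell g) N with h | h
        · exact Or.inl h
        · exact Or.inr ⟨hg, h⟩
      have h2 : Fm ≤ A + ∑ g ∈ (ball L m).filter (fun g => N ≤ L.ell g), (z : ℝ) ^ L.ell g := by
        refine (Finset.sum_le_sum_of_subset_of_nonneg hsub (fun _ _ _ => by positivity)).trans ?_
        have := Finset.sum_union_inter (s₁ := ball L N) (s₂ := (ball L m).filter (fun g => N ≤ L.ell g))
          (f := fun g => (z : ℝ) ^ L.ell g)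
        have hnn : 0 ≤ ∑ g ∈ (ball L N) ∩ ((ball L m).filter (fun g => N ≤ L.ell g)), (z : ℝ) ^ L.ell g :=
          Finset.sum_nonneg fun _ _ => by positivity
        linarith
      have h3 : ∑ g ∈ (ball L m).filter (fun g => N ≤ L.ell g), (z : ℝ) ^ L.ell g ≤ ρ * Fm := by
        have h4 : ρ * Fm = ∑ p ∈ (sph L N) ×ˢ (ball L m), (z : ℝ) ^ (N + L.ell p.2) := by
          rw [Finset.sum_product]
          simp only [pow_add]
          rw [Finset.sum_const, ← Finset.mul_sum, hρ, nsmul_eq_mul, mul_assoc]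
        rw [h4]
        have hinj : Set.InjOn P ((ball L m).filter (fun g => N ≤ L.ell g)) := by
          intro g hg g' hg' h
          simp only [Finset.coe_filter, Set.mem_ofPred_eq] at hg hg'
          rw [(hP g hg.2).1, (hP g' hg'.2).1, h]
        have e1 : ∑ g ∈ (ball L m).filter (fun g => N ≤ L.ell g), (z : ℝ) ^ L.ell g
            = ∑ g ∈ (ball L m).filter (fun g => N ≤ L.ell g), (z : ℝ) ^ (N + L.ell (P g).2) := by
          refine Finset.sum_congr rfl fun g hg => ?_
          rw [Finset.mem_filter] at hg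
          rw [(hP g hg.2).2.2, Nat.add_sub_cancel' hg.2]
        rw [e1, ← Finset.sum_image (f := fun p : G × G => (z : ℝ) ^ (N + L.ell p.2)) hinj]
        refine Finset.sum_le_sum_of_subset_of_nonneg ?_ (fun _ _ _ => by positivity)
        intro p hp
        rw [Finset.mem_image] at hp
        obtain ⟨g, hg, rfl⟩ := hp
        rw [Finset.mem_filter, mem_ball] at hg
        rw [Finset.mem_product, mem_sph, mem_ball]
        refine ⟨(hP g hg.2).2.1, ?_⟩
        rw [(hP g hg.2).2.2]
        exact (Nat.sub_le _ _).trans hg.1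
      linarith
    rw [le_div_iff₀ (by linarith)]
    nlinarith
  have hser : ser L z ≤ ENNReal.ofReal (A / (1 - ρ)) := by
    unfold ser
    rw [ENNReal.tsum_eq_iSup_sum]
    apply iSup_le
    intro s
    obtain ⟨m, hm⟩ : ∃ m, s ⊆ ball L m := by
      refine ⟨s.sup L.ell, fun g hg => ?_⟩
      rw [mem_ball]
      exact Finset.le_sup (f := L.ell) hg
    have h1 : ∑ g ∈ s, (z : ℝ≥0∞) ^ L.ell g ≤ ∑ g ∈ ball L m, (z : ℝ≥0∞) ^ L.ell g :=
      Finset.sum_le_sum_of_subset hm
    refine h1.trans ?_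
    have h2 : ∑ g ∈ ball L m, (z : ℝ≥0∞) ^ L.ell g = ENNReal.ofReal (∑ g ∈ ball L m, (z : ℝ) ^ L.ell g) := by
      rw [ENNReal.ofReal_sum_of_nonneg (fun _ _ => by positivity)]
      refine Finset.sum_congr rfl fun g _ => ?_
      rw [ENNReal.ofReal_pow (by positivity), ENNReal.ofReal_coe_nnreal]
    rw [h2]
    exact ENNReal.ofReal_le_ofReal (key m)
  exact hser.trans_lt ENNReal.ofReal_lt_top

end series

end Pool.Agent.MP1d7ced
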