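import Mathlib
import Pool.Agent.Lib.MP_1d7ced_al.Series

/-! Divergence of the growth series before `1`, and the marker-avoiding series. -/

namespace Pool.Agent.MP1d7ced

open FreeGroup
open scoped ENNReal NNReal

lemma tsum_list_bool_eq_top {y : ℝ≥0∞} (hy : 1 ≤ 2 * y) : ∑' l : List Bool, y ^ l.length = ⊤ := by
  let f : Bool × List Bool → List Bool := fun p => p.1 :: p.2
  have hf : Function.Injective f := by
    rintro ⟨a, l⟩ ⟨b, m⟩ h
    simp only [f, List.cons.injEq] at h
    rw [h.1, h.2]
  set T := ∑' l : List Bool, y ^ l.length with hT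
  have h1 : 1 + 2 * y * T ≤ T := by
    conv_rhs => rw [hT]
    rw [ENNReal.tsum_eq_add_tsum_ite (f := fun l : List Bool => y ^ l.length) []]
    have e0 : y ^ ([] : List Bool).length = 1 := by simp
    rw [e0]
    gcongr
    let h0 : List Bool → ℝ≥0∞ := fun l => match l with
      | [] => 0
      | (b :: m) => y ^ (b :: m).length
    have e4 : (∑' x : List Bool, if x = [] then 0 else y ^ x.length) = ∑' x, h0 x := by
      refine tsum_congr fun x => ?_
      cases x with
      | nil => simp [h0]
      | cons b m => simp [h0]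
    have e2 : 2 * y * T = ∑' p : Bool × List Bool, h0 (f p) := by
      have e3 : ∀ p : Bool × List Bool, h0 (f p) = y * y ^ p.2.length := by
        intro p
        simp only [f, h0, List.length_cons, pow_succ]
        rw [mul_comm]
      simp_rw [e3]
      rw [ENNReal.tsum_prod', tsum_bool]
      simp only [ENNReal.tsum_mul_left]
      rw [← hT]
      ring
    rw [e2]
    refine le_trans (ENNReal.tsum_comp_le_tsum_of_injective hf h0) ?_
    rw [← e4]
    apply le_of_eq
    refine tsum_congr fun x => ?_
    by_cases hx : x = []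
    · rw [if_pos hx, if_pos hx]
    · rw [if_neg hx, if_neg hx]
  by_contra hne
  have h2 : 1 + T ≤ T := by
    refine le_trans ?_ h1
    gcongr
    calc T = 1 * T := (one_mul T).symm
      _ ≤ 2 * y * T := by gcongr
  have h3 : (T : ℝ≥0∞) < 1 + T := by
    rw [add_comm]
    exact ENNReal.lt_add_right hne one_ne_zero
  exact absurd h2 (not_le.2 h3)

section

universe u
variable {X : Type u} [DecidableEq X] [Finite X] [Nontrivial X] (L : Len (FreeGroup X))

omit [DecidableEq X] [Nontrivial X] in
/-- a common bound for the lengths of letters -/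
lemma exists_letter_bound : ∃ c : ℕ, 1 ≤ c ∧ ∀ a : X × Bool, L.ell (mk [a]) ≤ c := by
  classical
  obtain ⟨c, hc⟩ := exists_ell_bound L 1
  refine ⟨c + 1, by omega, fun a => ?_⟩
  have := hc (mk [a]) (by simpa using norm_mk_le (L₁ := [a]))
  omega

/-- the series diverges at some `z < 1` -/
lemma exists_ser_eq_top : ∃ z : ℝ≥0, 0 < z ∧ z < 1 ∧ ser L z = ⊤ := by
  obtain ⟨c, hc1, hc⟩ := exists_letter_bound L
  obtain ⟨x0, x1, hx⟩ := exists_pair_ne X
  -- z = 1 - 1/(2c)
  set r : ℝ := 1 - 1 / (2 * c) with hr
  have hc0 : (0 : ℝ) < c := by exact_mod_cast hc1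
  have hc1' : (1 : ℝ) ≤ c := by exact_mod_cast hc1
  have hr0 : 0 < r := by
    rw [hr, sub_pos, div_lt_one (by positivity)]
    linarith
  have hr1 : r < 1 := by
    rw [hr]
    have : 0 < 1 / (2 * (c : ℝ)) := by positivity
    linarith
  have hbern : 1 ≤ 2 * r ^ c := by
    have := one_add_mul_le_pow (a := -(1 / (2 * (c : ℝ)))) (by
      have : 1 / (2 * (c : ℝ)) ≤ 1 := by
        rw [div_le_one (by positivity)]; linarith
      linarith) c
    have e : 1 + (c : ℝ) * -(1 / (2 * c)) = 1 / 2 := by
      field_simp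
      norm_num
    rw [e] at this
    have e2 : 1 + -(1 / (2 * (c : ℝ))) = r := by rw [hr]; ring
    rw [e2] at this
    linarith
  set z : ℝ≥0 := r.toNNReal with hz
  have hzr : (z : ℝ) = r := Real.coe_toNNReal r hr0.le
  have hz1' : z < 1 := by
    have : (z : ℝ) < ((1 : ℝ≥0) : ℝ) := by rw [hzr]; simpa using hr1
    exact_mod_cast this
  refine ⟨z, Real.toNNReal_pos.2 hr0, hz1', ?_⟩
  have hz2 : (1 : ℝ≥0∞) ≤ 2 * (z : ℝ≥0∞) ^ c := by
    have : (1 : ℝ≥0) ≤ 2 * z ^ c := by
      have : ((1 : ℝ≥0) : ℝ) ≤ ((2 * z ^ c : ℝ≥0) : ℝ) := by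
        push_cast
        rw [hzr]
        exact hbern
      exact_mod_cast this
    exact_mod_cast this
  have htop := tsum_list_bool_eq_top hz2
  rw [eq_top_iff, ← htop]
  let φ : List Bool → FreeGroup X := fun l => mk (l.map fun b => ((if b then x0 else x1), true))
  have hred : ∀ l : List Bool, FreeGroup.IsReduced (l.map fun b => ((if b then x0 else x1), true)) := by
    intro l
    unfold FreeGroup.IsReduced
    rw [List.isChain_map]
    exact List.Pairwise.isChain (List.pairwise_of_forall fun _ _ => by intro _; rfl)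
  have hφ : Function.Injective φ := by
    intro l l' h
    have h2 := congrArg FreeGroup.toWord h
    simp only [φ] at h2
    rw [toWord_mk_of_isReduced (hred l), toWord_mk_of_isReduced (hred l')] at h2
    refine List.map_injective_iff.2 ?_ h2
    intro b b' hbb
    cases b <;> cases b' <;> simp_all
  have hlen : ∀ l, L.ell (φ l) ≤ c * l.length := by
    intro l
    induction l with
    | nil => simp [φ, ← one_eq_mk, L.one]
    | cons b l ih =>
      have e : φ (b :: l) = mk [((if b then x0 else x1), true)] * φ l := by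
        simp only [φ, mul_mk, List.map_cons, List.singleton_append]
      rw [e]
      have h1 := L.mul_le (mk [((if b then x0 else x1), true)]) (φ l)
      have h2 := hc ((if b then x0 else x1), true)
      rw [List.length_cons, mul_add, mul_one]
      omega
  have hz1 : (z : ℝ≥0∞) ≤ 1 := by exact_mod_cast hz1'.le
  calc ∑' l : List Bool, ((z : ℝ≥0∞) ^ c) ^ l.length
      ≤ ∑' l : List Bool, (z : ℝ≥0∞) ^ L.ell (φ l) := by
        apply ENNReal.tsum_le_tsum
        intro l
        rw [← pow_mul]
        exact pow_le_pow_right_of_le_one' hz1 (hlen l)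
    _ ≤ ser L z := ENNReal.tsum_comp_le_tsum_of_injective hφ _

omit [DecidableEq X] [Finite X] [Nontrivial X] in
lemma isPrefix_of_isPrefix_take {Z y : List (X × Bool)} {q : ℕ} (h : Z.take y.length = y) (hq : q ≤ y.length) :
    Z.take q <+: y := by
  rw [← h]
  exact List.take_prefix_take_left hq

/-- the set of elements avoiding the word `w` -/
def Avoid (w : List (X × Bool)) : Set (FreeGroup X) := {g | ¬ w <:+: g.toWord}

/-- the marker-avoiding series is bounded, uniformly below the critical value -/
theorem exists_avoid_bound {w : List (X × Bool)} (hw : w ≠ []) (hwr : FreeGroup.IsReduced w) :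
    ∃ C N : ℕ, ∀ z : ℝ≥0, z ≤ 1 → ser L z ≠ ⊤ →
      (∑' g : Avoid w, (z : ℝ≥0∞) ^ L.ell g.1) * (z : ℝ≥0∞) ^ C ≤ N := by
  classical
  obtain ⟨c0, hc1, hc0⟩ := exists_letter_bound L
  have hc : ∀ y : FreeGroup X, ∃ c : X × Bool, FreeGroup.IsReduced (y.toWord ++ [c] ++ w) := fun y => by
    obtain ⟨c, hc⟩ := exists_letter (isReduced_toWord (x := y)) hwr
    exact ⟨c, by simpa using hc 1 one_ne_zero⟩
  have hd : ∀ g : FreeGroup X, ∃ d : X × Bool, FreeGroup.IsReduced (w ++ [d] ++ g.toWord) := fun g => by
    obtain ⟨c, hc⟩ := exists_letter hwr (isReduced_toWord (x := g))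
    exact ⟨c, by simpa using hc 1 one_ne_zero⟩
  choose c hc using hc
  choose d hd using hd
  let W : Avoid w × FreeGroup X → List (X × Bool) := fun p =>
    (p.1.1.toWord ++ [c p.1.1]) ++ w ++ ([d p.2] ++ p.2.toWord)
  have hW : ∀ p, FreeGroup.IsReduced (W p) := by
    intro p
    apply IsReduced.append_overlap
    · exact hc _
    · rw [← List.append_assoc]; exact hd _
    · exact hw
  let Φ : Avoid w × FreeGroup X → FreeGroup X := fun p => mk (W p)
  have hΦW : ∀ p, (Φ p).toWord = W p := fun p => toWord_mk_of_isReduced (hW p)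
  let q : List (X × Bool) → ℕ := fun Z => sInf {j | w <:+: Z.take j}
  have htake : ∀ p : Avoid w × FreeGroup X, (W p).take (p.1.1.toWord.length) = p.1.1.toWord := by
    intro p
    simp only [W, List.append_assoc]
    rw [List.take_append_of_le_length le_rfl, List.take_length]
  have hmem : ∀ p : Avoid w × FreeGroup X, (p.1.1.toWord.length + 1 + w.length) ∈ {j | w <:+: (W p).take j} := by
    intro p
    have e : (W p).take (p.1.1.toWord.length + 1 + w.length) = (p.1.1.toWord ++ [c p.1.1]) ++ w := by
      simp only [W]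
      rw [List.take_append_of_le_length (by simp only [List.length_append, List.length_cons, List.length_nil]; omega),
        List.take_of_length_le (by simp only [List.length_append, List.length_cons, List.length_nil]; omega)]
    show w <:+: (W p).take (p.1.1.toWord.length + 1 + w.length)
    rw [e]
    exact (List.suffix_append _ _).isInfix
  have hqle : ∀ p : Avoid w × FreeGroup X, q (W p) ≤ p.1.1.toWord.length + 1 + w.length := fun p =>
    Nat.sInf_le (hmem p)
  have hqgt : ∀ p : Avoid w × FreeGroup X, p.1.1.toWord.length < q (W p) := by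
    intro p
    by_contra hle
    push Not at hle
    have h1 : w <:+: (W p).take (q (W p)) := Nat.sInf_mem ⟨_, hmem p⟩
    have h2 := isPrefix_of_isPrefix_take (htake p) hle
    exact p.1.2 (h1.trans h2.isInfix)
  let Ψ : Avoid w × FreeGroup X → FreeGroup X × Fin (w.length + 1) := fun p =>
    (Φ p, ⟨p.1.1.toWord.length + 1 + w.length - q (W p), by
      have := hqgt p
      omega⟩)
  have hΨ : Function.Injective Ψ := by
    intro p p' h
    have h1 : Φ p = Φ p' := congrArg Prod.fst h
    have hWW : W p = W p' := by rw [← hΦW, ← hΦW, h1]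
    have h2 := congrArg (fun t => (Prod.snd t).1) h
    simp only [Ψ] at h2
    rw [hWW] at h2
    have hq1 := hqle p
    have hq2 := hqle p'
    rw [hWW] at hq1
    have hlen : p.1.1.toWord.length = p'.1.1.toWord.length := by omega
    have e1 : p.1.1.toWord = p'.1.1.toWord := by
      rw [← htake p, ← htake p', hWW, hlen]
    have e2 : p.1 = p'.1 := Subtype.ext (toWord_injective e1)
    have e3 : p.2.toWord = p'.2.toWord := by
      have hdrop : ∀ p : Avoid w × FreeGroup X, (W p).drop (p.1.1.toWord.length + 1 + w.length + 1) = p.2.toWord := by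
        intro p
        simp only [W]
        have e : (p.1.1.toWord ++ [c p.1.1]) ++ w ++ ([d p.2] ++ p.2.toWord)
            = ((p.1.1.toWord ++ [c p.1.1]) ++ w ++ [d p.2]) ++ p.2.toWord := by simp
        rw [e]
        exact List.drop_left' (by simp only [List.length_append, List.length_cons, List.length_nil])
      rw [← hdrop p, ← hdrop p', hWW, hlen]
    exact Prod.ext e2 (toWord_injective e3)
  set C : ℕ := L.ell (mk w) + 2 * c0 with hC
  have hlenΦ : ∀ p : Avoid w × FreeGroup X, L.ell (Φ p) ≤ L.ell p.1.1 + L.ell p.2 + C := by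
    intro p
    have e : Φ p = p.1.1 * mk [c p.1.1] * mk w * (mk [d p.2] * p.2) := by
      simp only [Φ, W, ← mul_mk, mk_toWord]
    rw [e]
    have h1 := L.mul_le (p.1.1 * mk [c p.1.1] * mk w) (mk [d p.2] * p.2)
    have h2 := L.mul_le (p.1.1 * mk [c p.1.1]) (mk w)
    have h3 := L.mul_le p.1.1 (mk [c p.1.1])
    have h4 := L.mul_le (mk [d p.2]) p.2
    have h5 := hc0 (c p.1.1)
    have h6 := hc0 (d p.2)
    omega
  refine ⟨C, w.length + 1, fun z hz hser => ?_⟩
  have hz1 : (z : ℝ≥0∞) ≤ 1 := by exact_mod_cast hz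
  have main : (∑' g : Avoid w, (z : ℝ≥0∞) ^ L.ell g.1) * (z : ℝ≥0∞) ^ C * ser L z ≤ ((w.length + 1 : ℕ) : ℝ≥0∞) * ser L z := by
    calc (∑' g : Avoid w, (z : ℝ≥0∞) ^ L.ell g.1) * (z : ℝ≥0∞) ^ C * ser L z
        = ∑' p : Avoid w × FreeGroup X, (z : ℝ≥0∞) ^ (L.ell p.1.1 + L.ell p.2 + C) := by
          rw [ENNReal.tsum_prod']
          unfold ser
          rw [mul_assoc, ← ENNReal.tsum_mul_right]
          refine tsum_congr fun a => ?_
          rw [mul_comm ((z : ℝ≥0∞) ^ C), ← mul_assoc, ← ENNReal.tsum_mul_left, ← ENNReal.tsum_mul_right]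
          refine tsum_congr fun b => ?_
          simp only [pow_add]
      _ ≤ ∑' p : Avoid w × FreeGroup X, (z : ℝ≥0∞) ^ L.ell (Φ p) := by
          apply ENNReal.tsum_le_tsum
          intro p
          exact pow_le_pow_right_of_le_one' hz1 (hlenΦ p)
      _ = ∑' p : Avoid w × FreeGroup X, (fun t : FreeGroup X × Fin (w.length + 1) => (z : ℝ≥0∞) ^ L.ell t.1) (Ψ p) := rfl
      _ ≤ ∑' t : FreeGroup X × Fin (w.length + 1), (z : ℝ≥0∞) ^ L.ell t.1 :=
          ENNReal.tsum_comp_le_tsum_of_injective hΨ _
      _ = ((w.length + 1 : ℕ) : ℝ≥0∞) * ser L z := by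
          rw [ENNReal.tsum_prod']
          unfold ser
          rw [← ENNReal.tsum_mul_left]
          refine tsum_congr fun a => ?_
          rw [tsum_fintype]
          simp
  have hne0 : ser L z ≠ 0 := by
    have := one_le_ser L z
    intro h
    rw [h] at this
    simp at this
  exact (ENNReal.mul_le_mul_iff_left hne0 hser).1 main

end

end Pool.Agent.MP1d7ced
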