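import Mathlib
import Pool.Agent.Lib.MP_1d7ced_al.Series2

/-! Uniform bound on the loss of length under sections. -/

namespace Pool.Agent.MP1d7ced

open FreeGroup
open scoped ENNReal NNReal

section

variable {G : Type*} [Group G] (L : Len G)

lemma exists_sph_lt {z : ℝ≥0} (h : ser L z ≠ ⊤) : ∃ N : ℕ, 1 ≤ N ∧ ((sph L N).card : ℝ≥0) * z ^ N < 1 := by
  classical
  by_contra hcon
  push Not at hcon
  apply h
  unfold ser
  rw [← (Equiv.sigmaFiberEquiv L.ell).tsum_eq, ENNReal.tsum_sigma']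
  have h1 : ∀ N : ℕ, (1 : ℝ≥0∞) ≤ ∑' b : {g // L.ell g = N + 1},
      (z : ℝ≥0∞) ^ L.ell ((Equiv.sigmaFiberEquiv L.ell) ⟨N + 1, b⟩) := by
    intro N
    have e1 : ∀ b : {g // L.ell g = N + 1}, (z : ℝ≥0∞) ^ L.ell ((Equiv.sigmaFiberEquiv L.ell) ⟨N + 1, b⟩)
        = (z : ℝ≥0∞) ^ (N + 1) := by
      intro b
      simp only [Equiv.sigmaFiberEquiv_apply]
      rw [b.2]
    simp_rw [e1]
    have : Finite {g // L.ell g = N + 1} :=
      ((L.finite_ball (N + 1)).subset (fun g (hg : L.ell g = N + 1) => hg.le) : {g | L.ell g = N + 1}.Finite).to_subtype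
    have : Fintype {g // L.ell g = N + 1} := Fintype.ofFinite _
    rw [tsum_fintype, Finset.sum_const, nsmul_eq_mul, Finset.card_univ]
    have e2 : Fintype.card {g // L.ell g = N + 1} = (sph L (N + 1)).card :=
      Fintype.card_of_subtype _ (fun g => mem_sph L)
    rw [e2]
    have := hcon (N + 1) (by omega)
    exact_mod_cast this
  rw [eq_top_iff]
  calc (⊤ : ℝ≥0∞) = ∑' _ : ℕ, (1 : ℝ≥0∞) := (ENNReal.tsum_const_eq_top_of_ne_zero one_ne_zero).symm
    _ ≤ ∑' N : ℕ, ∑' b : {g // L.ell g = N + 1}, (z : ℝ≥0∞) ^ L.ell ((Equiv.sigmaFiberEquiv L.ell) ⟨N + 1, b⟩) :=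
        ENNReal.tsum_le_tsum h1
    _ ≤ _ := ENNReal.tsum_comp_le_tsum_of_injective (f := fun N : ℕ => N + 1) (add_left_injective 1)
        (fun N => ∑' b : {g // L.ell g = N}, (z : ℝ≥0∞) ^ L.ell ((Equiv.sigmaFiberEquiv L.ell) ⟨N, b⟩))

/-- abstract critical exponent argument: a bound valid below the critical value is contradictory -/
lemma no_uniform_bound {z1 : ℝ≥0} (hz1 : 0 < z1) (htop : ser L z1 = ⊤) {C : ℕ} {B : ℝ≥0∞} (hB : B ≠ ⊤)
    (h : ∀ z ≤ z1, ser L z ≠ ⊤ → ser L z * (z : ℝ≥0∞) ^ C ≤ B) : False := by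
  set T : Set ℝ≥0 := {z | z ≤ z1 ∧ ser L z ≠ ⊤} with hT
  have hbdd : BddAbove T := ⟨z1, fun z hz => hz.1⟩
  -- a positive element
  obtain ⟨z2, hz2, hz2T⟩ : ∃ z2, 0 < z2 ∧ z2 ∈ T := by
    refine ⟨min z1 (1 / (2 * ((sph L 1).card + 1))), lt_min hz1 (by positivity), min_le_left _ _, ?_⟩
    apply ne_of_lt
    apply ser_lt_top_of L (N := 1)
    rw [pow_one]
    have h1 : ((sph L 1).card : ℝ≥0) * min z1 (1 / (2 * ((sph L 1).card + 1)))
        ≤ ((sph L 1).card : ℝ≥0) * (1 / (2 * ((sph L 1).card + 1))) := by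
      gcongr
      exact min_le_right _ _
    refine h1.trans_lt ?_
    rw [mul_one_div, div_lt_one (by positivity)]
    have : ((sph L 1).card : ℝ≥0) < (sph L 1).card + 1 := lt_add_one _
    calc ((sph L 1).card : ℝ≥0) < (sph L 1).card + 1 := this
      _ ≤ 2 * ((sph L 1).card + 1) := by
        rw [two_mul]; exact le_add_of_nonneg_left (by positivity)
  set zs := sSup T with hzs
  have hz2s : z2 ≤ zs := le_csSup hbdd hz2T
  have hzs0 : 0 < zs := hz2.trans_le hz2s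
  have hzs1 : zs ≤ z1 := csSup_le ⟨z2, hz2T⟩ fun z hz => hz.1
  have hz2C : ((z2 : ℝ≥0∞) ^ C) ≠ 0 := by
    apply pow_ne_zero
    exact_mod_cast hz2.ne'
  have hz2C' : ((z2 : ℝ≥0∞) ^ C) ≠ ⊤ := ENNReal.pow_ne_top ENNReal.coe_ne_top
  have hbound : ser L zs ≤ B / (z2 : ℝ≥0∞) ^ C := by
    apply ser_le_of_forall_lt L hzs0
    intro z' hz'
    obtain ⟨z'', hz''T, hz''⟩ := exists_lt_of_lt_csSup ⟨z2, hz2T⟩ hz'
    have h3T : max z'' z2 ∈ T := by
      rcases max_choice z'' z2 with h | h <;> rw [h] <;> assumption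
    refine (ser_mono L (hz''.le.trans (le_max_left _ z2))).trans ?_
    rw [ENNReal.le_div_iff_mul_le (Or.inl hz2C) (Or.inl hz2C')]
    refine le_trans ?_ (h _ h3T.1 h3T.2)
    gcongr
    exact le_max_right _ _
  have hfin : ser L zs ≠ ⊤ := by
    apply ne_top_of_le_ne_top _ hbound
    exact ENNReal.div_ne_top hB hz2C
  have hlt : zs < z1 := lt_of_le_of_ne hzs1 (by rintro h; rw [h] at hfin; exact hfin htop)
  obtain ⟨N, hN1, hN⟩ := exists_sph_lt L hfin
  have hcont : Continuous fun z : ℝ≥0 => ((sph L N).card : ℝ≥0) * z ^ N := by fun_prop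
  have hev : ∀ᶠ z in nhds zs, ((sph L N).card : ℝ≥0) * z ^ N < 1 :=
    hcont.continuousAt.eventually_lt continuousAt_const hN
  have hev2 : ∀ᶠ z in nhdsWithin zs (Set.Ioi zs), ((sph L N).card : ℝ≥0) * z ^ N < 1 :=
    hev.filter_mono nhdsWithin_le_nhds
  have hev3 : ∀ᶠ z in nhdsWithin zs (Set.Ioi zs), z < z1 :=
    (eventually_lt_nhds hlt).filter_mono nhdsWithin_le_nhds
  have hev4 : ∀ᶠ z in nhdsWithin zs (Set.Ioi zs), zs < z := eventually_mem_nhdsWithin
  obtain ⟨z, ⟨h1, h2⟩, h3⟩ := ((hev2.and hev3).and hev4).exists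
  have : z ∈ T := ⟨h2.le, (ser_lt_top_of L z h1).ne⟩
  exact absurd (le_csSup hbdd this) (not_le.2 h3)

end

section main

universe u v

variable {X : Type u} [DecidableEq X] [Finite X] [Nontrivial X] {A : Type v} [Finite A]
  {σ : SelfSim (FreeGroup X) A} {L : Len (FreeGroup X)} {K : ℕ}

omit [Finite X] in
/-- `g ↦ (section, image)` is injective for fixed vertex -/
lemma sec_act_injective (htr : σ.Transitive) {g h : FreeGroup X} {v : List A}
    (h1 : σ.sec g v = σ.sec h v) (h2 : σ.act g v = σ.act h v) : g = h := by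
  have hnab : ∃ a b : FreeGroup X, ¬ Commute a b := by
    obtain ⟨x, y, hxy⟩ := exists_pair_ne X
    refine ⟨FreeGroup.of x, FreeGroup.of y, fun h => ?_⟩
    have e2 := congrArg FreeGroup.toWord h.eq
    simp [FreeGroup.toWord_mul, FreeGroup.toWord_of, FreeGroup.reduce.cons] at e2
    simp [hxy] at e2
  have : h⁻¹ * g = 1 := by
    apply kernel_trivial σ hnab htr (u := v)
    · rw [σ.act_mul, h2, σ.act_inv_act]
    · rw [σ.sec_mul, h2, σ.sec_inv, h1, inv_mul_cancel]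
  rw [inv_mul_eq_one] at this
  exact this.symm

theorem sec_bound (htr : σ.Transitive) (hsec : ∀ g u, L.ell (σ.sec g u) ≤ L.ell g)
    (hK : ∀ x y : List (X × Bool), FreeGroup.IsReduced (x ++ y) →
      L.ell (mk x) + L.ell (mk y) ≤ L.ell (mk (x ++ y)) + K)
    (g : FreeGroup X) (v : List A) : L.ell g ≤ L.ell (σ.sec g v) + 2 * K := by
  classical
  by_contra hlt
  push Not at hlt
  obtain ⟨n, hn⟩ : ∃ n, v.length = n := ⟨_, rfl⟩
  obtain ⟨z1, hz1, hz11, htop⟩ := exists_ser_eq_top L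
  have : Fintype {u : List A // u.length = n} := Fintype.ofFinite _
  set V := {u : List A // u.length = n} with hV
  obtain ⟨R, hR⟩ : ∃ R : ℕ, (Fintype.card V : ℝ≥0) * z1 ^ R ≤ 1 / 2 := by
    have h1 : Filter.Tendsto (fun R : ℕ => (Fintype.card V : ℝ≥0) * z1 ^ R) Filter.atTop (nhds ((Fintype.card V : ℝ≥0) * 0)) :=
      (NNReal.tendsto_pow_atTop_nhds_zero_of_lt_one hz11).const_mul _
    rw [mul_zero] at h1
    have h2 := h1.eventually (eventually_lt_nhds (b := (1 / 2 : ℝ≥0)) (by positivity))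
    obtain ⟨R, hR⟩ := h2.exists
    exact ⟨R, hR.le⟩
  obtain ⟨w, hw0, hwr, hwR⟩ := exists_marker (σ := σ) hsec hK htr hn (g := g) (by omega) (R + K)
  obtain ⟨C, N, hCN⟩ := exists_avoid_bound L hw0 hwr
  apply no_uniform_bound L hz1 htop (C := C) (B := 2 * N) (by
    exact ENNReal.mul_ne_top (by norm_num) (ENNReal.natCast_ne_top N))
  intro z hz hser
  have hz1' : (z : ℝ≥0∞) ≤ 1 := by exact_mod_cast (hz.trans hz11.le)
  set P := ∑' g : Avoid w, (z : ℝ≥0∞) ^ L.ell g.1 with hP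
  have hinj : Function.Injective (fun g : FreeGroup X =>
      ((σ.sec g v, ⟨σ.act g v, by rw [σ.length_act, hn]⟩) : FreeGroup X × V)) := by
    intro g h hgh
    simp only [Prod.mk.injEq, Subtype.mk.injEq] at hgh
    exact sec_act_injective htr hgh.1 (congrArg Subtype.val hgh.2)
  have hcompl : ∑' g : ((Avoid w)ᶜ : Set (FreeGroup X)), (z : ℝ≥0∞) ^ L.ell g.1
      ≤ (z : ℝ≥0∞) ^ R * ((Fintype.card V : ℝ≥0∞) * ser L z) := by
    calc ∑' g : ((Avoid w)ᶜ : Set (FreeGroup X)), (z : ℝ≥0∞) ^ L.ell g.1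
        ≤ ∑' g : ((Avoid w)ᶜ : Set (FreeGroup X)), (z : ℝ≥0∞) ^ R * (z : ℝ≥0∞) ^ L.ell (σ.sec g.1 v) := by
          apply ENNReal.tsum_le_tsum
          intro g'
          rw [← pow_add]
          apply pow_le_pow_right_of_le_one' hz1'
          have hg' : w <:+: g'.1.toWord := by
            by_contra hcon
            exact g'.2 hcon
          have := sec_add_le_of_marker hwR hn hsec hg'
          omega
      _ = (z : ℝ≥0∞) ^ R * ∑' g : ((Avoid w)ᶜ : Set (FreeGroup X)), (z : ℝ≥0∞) ^ L.ell (σ.sec g.1 v) :=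
          ENNReal.tsum_mul_left
      _ ≤ (z : ℝ≥0∞) ^ R * ∑' g : FreeGroup X, (z : ℝ≥0∞) ^ L.ell (σ.sec g v) := by
          gcongr
          exact ENNReal.tsum_comp_le_tsum_of_injective Subtype.val_injective
            (fun g : FreeGroup X => (z : ℝ≥0∞) ^ L.ell (σ.sec g v))
      _ ≤ (z : ℝ≥0∞) ^ R * ∑' p : FreeGroup X × V, (z : ℝ≥0∞) ^ L.ell p.1 := by
          gcongr
          exact ENNReal.tsum_comp_le_tsum_of_injective hinj
            (fun p : FreeGroup X × V => (z : ℝ≥0∞) ^ L.ell p.1)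
      _ = (z : ℝ≥0∞) ^ R * ((Fintype.card V : ℝ≥0∞) * ser L z) := by
          congr 1
          rw [ENNReal.tsum_prod']
          unfold ser
          rw [← ENNReal.tsum_mul_left]
          refine tsum_congr fun a => ?_
          rw [tsum_fintype]
          simp only [Finset.sum_const, nsmul_eq_mul, Finset.card_univ]
  have hhalf : (z : ℝ≥0∞) ^ R * ((Fintype.card V : ℝ≥0∞) * ser L z) ≤ ser L z / 2 := by
    have h1 : (Fintype.card V : ℝ≥0) * z ^ R ≤ 1 / 2 := by
      refine le_trans ?_ hR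
      gcongr
    have h2 : (Fintype.card V : ℝ≥0∞) * (z : ℝ≥0∞) ^ R ≤ 1 / 2 := by
      have : (((Fintype.card V : ℝ≥0) * z ^ R : ℝ≥0) : ℝ≥0∞) ≤ ((1 / 2 : ℝ≥0) : ℝ≥0∞) := by exact_mod_cast h1
      rw [ENNReal.coe_div two_ne_zero] at this
      simpa using this
    calc (z : ℝ≥0∞) ^ R * ((Fintype.card V : ℝ≥0∞) * ser L z)
        = ((Fintype.card V : ℝ≥0∞) * (z : ℝ≥0∞) ^ R) * ser L z := by ring
      _ ≤ (1 / 2) * ser L z := by gcongr
      _ = ser L z / 2 := by rw [one_div, mul_comm, div_eq_mul_inv]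
  have hsum : ser L z ≤ P + ser L z / 2 := by
    have : ser L z = P + ∑' g : ((Avoid w)ᶜ : Set (FreeGroup X)), (z : ℝ≥0∞) ^ L.ell g.1 := by
      unfold ser
      rw [hP]
      exact (ENNReal.summable.tsum_add_tsum_compl ENNReal.summable).symm
    calc ser L z = P + ∑' g : ((Avoid w)ᶜ : Set (FreeGroup X)), (z : ℝ≥0∞) ^ L.ell g.1 := this
      _ ≤ P + ser L z / 2 := by gcongr; exact hcompl.trans hhalf
  have hle : ser L z ≤ 2 * P := by
    have h1 : ser L z / 2 + ser L z / 2 ≤ P + ser L z / 2 := by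
      rw [ENNReal.add_halves]; exact hsum
    have h2 : ser L z / 2 ≤ P := by
      apply ENNReal.le_of_add_le_add_right _ h1
      exact ENNReal.div_ne_top hser two_ne_zero
    calc ser L z = ser L z / 2 + ser L z / 2 := (ENNReal.add_halves _).symm
      _ ≤ P + P := by gcongr
      _ = 2 * P := (two_mul P).symm
  have hPC := hCN z (hz.trans hz11.le) hser
  calc ser L z * (z : ℝ≥0∞) ^ C ≤ 2 * P * (z : ℝ≥0∞) ^ C := by gcongr
    _ = 2 * (P * (z : ℝ≥0∞) ^ C) := by ring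
    _ ≤ 2 * N := by gcongr

end main

end Pool.Agent.MP1d7ced
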