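import Mathlib
import Pool.Agent.Lib.MP_1d7ced_al.Bound

/-! Finitely many almost invariant colourings, and injectivity of sections. -/

namespace Pool.Agent.MP1d7ced

open FreeGroup

section

universe u v

variable {X : Type u} [DecidableEq X]

lemma head?_toWord_mul {h s : FreeGroup X} (hs : s.norm < h.norm) :
    (h * s).toWord.head? = h.toWord.head? := by
  have h1 := take_isPrefix_reduce_append s.toWord h.toWord isReduced_toWord
  rw [← toWord_mul] at h1
  obtain ⟨r, hr⟩ := h1
  rw [← hr]
  have h2 : s.toWord.length < h.toWord.length := hs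
  obtain ⟨m, hm⟩ : ∃ m, h.toWord.length - s.toWord.length = m + 1 := ⟨h.toWord.length - s.toWord.length - 1, by omega⟩
  rw [hm]
  cases hw : h.toWord with
  | nil => rw [hw] at h2; simp at h2
  | cons a t => simp

variable {A : Type v} (σ : SelfSim (FreeGroup X) A)

/-- colour of `g` seen from `v`: first letter of the inverse of the section -/
def col (v : List A) (g : FreeGroup X) : Option (X × Bool) := ((σ.sec g v)⁻¹).toWord.head?

lemma col_cons (a : A) (v : List A) (g : FreeGroup X) : col σ (a :: v) g = col σ v (σ.sec g [a]) := by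
  unfold col
  have : a :: v = [a] ++ v := rfl
  rw [this, σ.sec_append]

variable {σ}
variable {L : Len (FreeGroup X)} {K : ℕ}

lemma exists_col_stable [Finite X] (hsec : ∀ g u, L.ell (σ.sec g u) ≤ L.ell g)
    (hb : ∀ g v, L.ell g ≤ L.ell (σ.sec g v) + 2 * K) :
    ∃ D, ∀ (v : List A) (g s : FreeGroup X), D < L.ell g → L.ell s = 1 → col σ v (s * g) = col σ v g := by
  obtain ⟨lam, hlam⟩ := exists_norm_bound L
  obtain ⟨D0, hD0⟩ := exists_ell_bound L lam
  refine ⟨D0 + 2 * K, fun v g s hg hs => ?_⟩
  unfold col
  rw [σ.sec_mul, mul_inv_rev]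
  apply head?_toWord_mul
  rw [norm_inv_eq, norm_inv_eq]
  have h1 : (σ.sec s (σ.act g v)).norm ≤ lam := hlam _ ((hsec _ _).trans hs.le)
  refine lt_of_le_of_lt h1 ?_
  by_contra hle
  push Not at hle
  have h2 := hD0 _ hle
  have h3 := hb g v
  omega

/-- equality of colourings up to finitely many elements -/
def colSetoid (σ : SelfSim (FreeGroup X) A) : Setoid (List A) where
  r v v' := {g | col σ v g ≠ col σ v' g}.Finite
  iseqv :=
    { refl := fun v => by simp
      symm := fun {v v'} h => by simpa [ne_comm] using h
      trans := fun {v v' v''} h h' => by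
        refine (h.union h').subset ?_
        intro g hg
        by_contra hcon
        simp only [Set.mem_union, Set.mem_ofPred_eq, not_or, not_not] at hcon
        exact hg (hcon.1.trans hcon.2) }

lemma col_list {D : ℕ} (hD : ∀ (v : List A) (g s : FreeGroup X), D < L.ell g → L.ell s = 1 → col σ v (s * g) = col σ v g)
    (v : List A) (l : List (FreeGroup X)) (hl : ∀ s ∈ l, L.ell s = 1) (y : FreeGroup X) (hy : D < L.ell y)
    (hgeo : L.ell (l.prod * y) = l.length + L.ell y) : col σ v (l.prod * y) = col σ v y := by
  induction l with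
  | nil => simp
  | cons s l ih =>
    rw [List.prod_cons, mul_assoc]
    have h1 : L.ell (l.prod * y) = l.length + L.ell y := by
      have h2 := L.ell_list_prod_le l (fun t ht => hl t (List.mem_cons_of_mem _ ht))
      have h3 := L.mul_le l.prod y
      rw [List.prod_cons, mul_assoc, List.length_cons] at hgeo
      have h4 := L.mul_le s (l.prod * y)
      have h5 := hl s (by simp)
      omega
    rw [hD v _ s (by omega) (hl s (by simp))]
    exact ih (fun t ht => hl t (List.mem_cons_of_mem _ ht)) h1

lemma col_list_short {D : ℕ} (hD : ∀ (v : List A) (g s : FreeGroup X), D < L.ell g → L.ell s = 1 → col σ v (s * g) = col σ v g)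
    (v : List A) (l : List (FreeGroup X)) (hl : ∀ s ∈ l, L.ell s = 1) (y : FreeGroup X) (hy : D + l.length < L.ell y) :
    col σ v (l.prod * y) = col σ v y := by
  induction l with
  | nil => simp
  | cons s l ih =>
    rw [List.prod_cons, mul_assoc]
    rw [List.length_cons] at hy
    have hlen : D < L.ell (l.prod * y) := by
      have h2 := L.ell_list_prod_le l (fun t ht => hl t (List.mem_cons_of_mem _ ht))
      have h3 := L.mul_le l.prod⁻¹ (l.prod * y)
      rw [inv_mul_cancel_left, L.inv] at h3
      omega
    rw [hD v _ s hlen (hl s (by simp))]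
    exact ih (fun t ht => hl t (List.mem_cons_of_mem _ ht)) (by omega)

lemma finite_quotient [Finite X] (hsec : ∀ g u, L.ell (σ.sec g u) ≤ L.ell g)
    (hb : ∀ g v, L.ell g ≤ L.ell (σ.sec g v) + 2 * K) : Finite (Quotient (colSetoid σ)) := by
  classical
  obtain ⟨D, hD⟩ := exists_col_stable hsec hb
  let restr : List A → (ball L (D + 1) → Option (X × Bool)) := fun v g => col σ v g.1
  have key : ∀ v v', restr v = restr v' → (colSetoid σ).r v v' := by
    intro v v' h
    show {g | col σ v g ≠ col σ v' g}.Finite
    refine (L.finite_ball D).subset ?_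
    intro g hg
    by_contra hlt
    simp only [Set.mem_ofPred_eq, not_le] at hlt
    apply hg
    obtain ⟨x, y, hxy, hx, hy⟩ := L.split g (L.ell g - (D + 1)) (by omega)
    obtain ⟨l, hl1, hl2, hl3⟩ := L.exists_list x
    have hyD : L.ell y = D + 1 := by omega
    have e : ∀ w, col σ w g = col σ w y := by
      intro w
      rw [hxy, ← hl2]
      have hgeo : L.ell (l.prod * y) = l.length + L.ell y := by
        rw [hl2, ← hxy]; omega
      apply col_list hD w l hl1 y
      · omega
      · exact hgeo
    rw [e v, e v']
    exact congrFun h ⟨y, by rw [mem_ball, hyD]⟩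
  have hfin : Finite (Set.range restr) := inferInstance
  let back : Set.range restr → Quotient (colSetoid σ) := fun f => Quotient.mk _ f.2.choose
  apply Finite.of_surjective back
  intro q
  obtain ⟨v, rfl⟩ := Quotient.exists_rep q
  refine ⟨⟨restr v, v, rfl⟩, ?_⟩
  apply Quotient.sound
  exact key _ _ (Exists.choose_spec (⟨v, rfl⟩ : ∃ v', restr v' = restr v))

/-- images of one-letter sections are coarsely dense -/
lemma coarse_dense (hsec : ∀ g u, L.ell (σ.sec g u) ≤ L.ell g)
    (hb : ∀ g v, L.ell g ≤ L.ell (σ.sec g v) + 2 * K) (a : A) (h : FreeGroup X) :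
    ∃ k, L.ell k ≤ 2 * K ∧ ∃ g, σ.sec g [a] = k * h := by
  classical
  let f : FreeGroup X → FreeGroup X := fun g => σ.sec g [a]
  have hf : ∀ N g, f^[N] g = σ.sec g (List.replicate N a) := by
    intro N
    induction N with
    | zero => intro g; simp [σ.sec_nil]
    | succ N ih =>
      intro g
      rw [Function.iterate_succ_apply, ih]
      have : List.replicate (N + 1) a = [a] ++ List.replicate N a := by
        simp [List.replicate_succ]
      rw [this, σ.sec_append]
  have hlen : ∀ N, L.ell (f^[N] h) ≤ L.ell h := fun N => by rw [hf]; exact hsec _ _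
  obtain ⟨i, j, hij, hfij⟩ : ∃ i j, i < j ∧ f^[i] h = f^[j] h := by
    have hnot : ¬ Function.Injective (fun N : ℕ => (⟨f^[N] h, hlen N⟩ : {g | L.ell g ≤ L.ell h})) := by
      intro hinj
      have : Finite {g | L.ell g ≤ L.ell h} := (L.finite_ball _).to_subtype
      exact not_injective_infinite_finite _ hinj
    unfold Function.Injective at hnot
    push Not at hnot
    obtain ⟨i, j, h1, h2⟩ := hnot
    have h1' : f^[i] h = f^[j] h := congrArg Subtype.val h1
    rcases lt_or_gt_of_ne h2 with h3 | h3
    · exact ⟨i, j, h3, h1'⟩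
    · exact ⟨j, i, h3, h1'.symm⟩
  set p := j - i with hp
  have hp0 : 0 < p := by omega
  have hper : ∀ m, i ≤ m → f^[m + p] h = f^[m] h := by
    intro m hm
    have e1 : m + p = (m - i) + j := by omega
    have e2 : m = (m - i) + i := by omega
    rw [e1, Function.iterate_add_apply, ← hfij, ← Function.iterate_add_apply]
    congr 1
    omega
  have hper2 : ∀ t m, i ≤ m → f^[m + t * p] h = f^[m] h := by
    intro t
    induction t with
    | zero => intro m _; simp
    | succ t ih =>
      intro m hm
      have : m + (t + 1) * p = (m + t * p) + p := by ring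
      rw [this, hper _ (by omega), ih m hm]
  -- N = (i + 1) * p
  set N := (i + 1) * p with hN
  have hNi : i ≤ N := by
    calc i ≤ (i + 1) * 1 := by omega
      _ ≤ (i + 1) * p := Nat.mul_le_mul_left _ hp0
  have hN1 : 1 ≤ N := Nat.mul_pos (by omega) hp0
  have hidem : f^[N + N] h = f^[N] h := by
    conv_lhs => rw [hN, ← hN]
    exact hper2 (i + 1) N hNi
  set h' := f^[N] h with hh'
  have h3 : f^[N] h' = f^[N] h := by
    rw [hh', ← Function.iterate_add_apply]; exact hidem
  refine ⟨h' * h⁻¹, ?_, f^[N - 1] h, ?_⟩
  · have h4 := hb (h' * h⁻¹) (σ.act h (List.replicate N a))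
    have h5 : σ.sec (h' * h⁻¹) (σ.act h (List.replicate N a)) = 1 := by
      rw [σ.sec_mul, σ.act_inv_act, σ.sec_inv, ← hf, ← hf, h3, mul_inv_cancel]
    rw [h5, L.one] at h4
    omega
  · show f (f^[N - 1] h) = h' * h⁻¹ * h
    rw [← Function.iterate_succ_apply' f, inv_mul_cancel_right]
    have : (N - 1).succ = N := by omega
    rw [this]

lemma cons_rel [Finite X] (hb : ∀ g v, L.ell g ≤ L.ell (σ.sec g v) + 2 * K) (a : A) {v v' : List A}
    (h : (colSetoid σ).r v v') : (colSetoid σ).r (a :: v) (a :: v') := by
  show {g | col σ (a :: v) g ≠ col σ (a :: v') g}.Finite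
  have h' : {g | col σ v g ≠ col σ v' g}.Finite := h
  obtain ⟨m, hm⟩ := (h'.image L.ell).bddAbove
  refine (L.finite_ball (m + 2 * K)).subset ?_
  intro g hg
  rw [Set.mem_ofPred_eq, col_cons, col_cons] at hg
  have h1 : L.ell (σ.sec g [a]) ≤ m := hm ⟨_, hg, rfl⟩
  have h2 := hb g [a]
  show L.ell g ≤ m + 2 * K
  omega

lemma rel_of_cons [Finite X] (hsec : ∀ g u, L.ell (σ.sec g u) ≤ L.ell g)
    (hb : ∀ g v, L.ell g ≤ L.ell (σ.sec g v) + 2 * K) (a : A) {v v' : List A}
    (h : (colSetoid σ).r (a :: v) (a :: v')) : (colSetoid σ).r v v' := by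
  obtain ⟨D, hD⟩ := exists_col_stable hsec hb
  have h' : {g | col σ (a :: v) g ≠ col σ (a :: v') g}.Finite := h
  obtain ⟨m, hm⟩ := (h'.image L.ell).bddAbove
  show {g | col σ v g ≠ col σ v' g}.Finite
  refine (L.finite_ball (D + 2 * K + m + 2 * K)).subset ?_
  intro y hy
  by_contra hlt
  simp only [Set.mem_ofPred_eq, not_le] at hlt
  obtain ⟨k, hk, g, hg⟩ := coarse_dense hsec hb a y
  obtain ⟨l, hl1, hl2, hl3⟩ := L.exists_list k
  have e1 := col_list_short hD v l hl1 y (by omega)
  have e2 := col_list_short hD v' l hl1 y (by omega)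
  have hgmem : g ∈ {g | col σ (a :: v) g ≠ col σ (a :: v') g} := by
    rw [Set.mem_ofPred_eq, col_cons, col_cons, hg, ← hl2, e1, e2]
    exact hy
  have h1 : L.ell g ≤ m := hm ⟨_, hgmem, rfl⟩
  have h2 := hsec g [a]
  rw [hg] at h2
  have h3 := L.mul_le k⁻¹ (k * y)
  rw [inv_mul_cancel_left, L.inv] at h3
  omega

/-- every class contains words starting with any prescribed letter -/
lemma exists_cons_rel [Finite X] (hsec : ∀ g u, L.ell (σ.sec g u) ≤ L.ell g)
    (hb : ∀ g v, L.ell g ≤ L.ell (σ.sec g v) + 2 * K) (b : A) (u : List A) :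
    ∃ v, (colSetoid σ).r u (b :: v) := by
  have hfin := finite_quotient hsec hb
  let τ : Quotient (colSetoid σ) → Quotient (colSetoid σ) :=
    Quotient.map (fun v => b :: v) (fun v v' h => cons_rel hb b h)
  have hτ : Function.Injective τ := by
    intro q q' h
    induction q using Quotient.inductionOn with
    | _ v =>
      induction q' using Quotient.inductionOn with
      | _ v' =>
        apply Quotient.sound
        exact rel_of_cons hsec hb b (Quotient.exact h)
  obtain ⟨q, hq⟩ := (Finite.injective_iff_surjective.1 hτ) (Quotient.mk _ u)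
  obtain ⟨v, rfl⟩ := Quotient.exists_rep q
  exact ⟨v, (colSetoid σ).symm (Quotient.exact hq)⟩

/-- no nontrivial element has a trivial section at a letter -/
theorem eq_one_of_sec_eq_one [Finite X] [Nontrivial X] (hsec : ∀ g u, L.ell (σ.sec g u) ≤ L.ell g)
    (hb : ∀ g v, L.ell g ≤ L.ell (σ.sec g v) + 2 * K) {g : FreeGroup X} {a : A}
    (hg : σ.sec g [a] = 1) : g = 1 := by
  classical
  have hfin := finite_quotient hsec hb
  obtain ⟨b, hb'⟩ : ∃ b, σ.act g [a] = [b] := by
    have := σ.length_act g [a]
    rw [List.length_singleton, List.length_eq_one_iff] at this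
    exact this
  have hstep : ∀ u : List A, ∃ u' : List A, {h | col σ u' (h * g) ≠ col σ u h}.Finite := by
    intro u
    obtain ⟨v, hv⟩ := exists_cons_rel hsec hb b u
    refine ⟨a :: v, ?_⟩
    have hv' : {h | col σ u h ≠ col σ (b :: v) h}.Finite := hv
    refine hv'.subset ?_
    intro h hh
    rw [Set.mem_ofPred_eq, col_cons, σ.sec_mul, hb', hg, mul_one, ← col_cons] at hh
    exact hh.symm
  choose next hnext using hstep
  let U : ℕ → List A := fun j => next^[j] []
  have hU : ∀ j, {h | col σ (U j) (h * g ^ j) ≠ col σ [] h}.Finite := by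
    intro j
    induction j with
    | zero => simp [U]
    | succ j ih =>
      have e : U (j + 1) = next (U j) := Function.iterate_succ_apply' next j []
      have h1 : {h | col σ (next (U j)) (h * g ^ j * g) ≠ col σ (U j) (h * g ^ j)}.Finite :=
        (hnext (U j)).preimage (f := fun h => h * g ^ j) (fun x _ y _ hxy => mul_right_cancel hxy)
      refine (h1.union ih).subset ?_
      intro h hh
      by_contra hcon
      simp only [Set.mem_union, Set.mem_ofPred_eq, not_or, not_not] at hcon
      apply hh
      rw [e, pow_succ, ← mul_assoc, hcon.1, hcon.2]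
  obtain ⟨i, j, hij, hrel⟩ : ∃ i j, i < j ∧ (colSetoid σ).r (U i) (U j) := by
    have hnot : ¬ Function.Injective (fun j : ℕ => (Quotient.mk (colSetoid σ) (U j))) :=
      fun hinj => not_injective_infinite_finite _ hinj
    unfold Function.Injective at hnot
    push Not at hnot
    obtain ⟨i, j, h1, h2⟩ := hnot
    rcases lt_or_gt_of_ne h2 with h3 | h3
    · exact ⟨i, j, h3, Quotient.exact h1⟩
    · exact ⟨j, i, h3, (colSetoid σ).symm (Quotient.exact h1)⟩
  have hrel' : {h | col σ (U i) h ≠ col σ (U j) h}.Finite := hrel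
  set m := j - i with hm
  have hm0 : m ≠ 0 := by omega
  -- colouring at the root is invariant under g ^ m up to finitely many
  have hinv : {h | col σ [] (h * g ^ m) ≠ col σ [] h}.Finite := by
    have h1 := (hU i).preimage (f := fun h => h * g ^ m) (fun x _ y _ hxy => mul_right_cancel hxy)
    have h2 := hrel'.preimage (f := fun h => h * g ^ j) (fun x _ y _ hxy => mul_right_cancel hxy)
    refine ((h1.union h2).union (hU j)).subset ?_
    intro h hh
    by_contra hcon
    simp only [Set.mem_union, Set.mem_preimage, Set.mem_ofPred_eq, not_or, not_not] at hcon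
    obtain ⟨⟨c1, c2⟩, c3⟩ := hcon
    apply hh
    have e : h * g ^ m * g ^ i = h * g ^ j := by
      rw [mul_assoc, ← pow_add]
      congr 2
      omega
    rw [e] at c1
    rw [← c1, c2, c3]
  set k := g ^ m with hk
  have hk1 : k = 1 := by
    by_contra hne
    have hword : (k⁻¹).toWord ≠ [] := by
      rw [Ne, toWord_eq_nil_iff, inv_eq_one]; exact hne
    obtain ⟨f, t, hft⟩ := List.exists_cons_of_ne_nil hword
    obtain ⟨x, hx1, hx2⟩ := exists_letter_aux ((k⁻¹).toWord.getLast?) (some (f.1, !f.2))
    have hxf : x ≠ f := by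
      rintro rfl
      have := hx2 (x.1, !x.2) rfl rfl
      simp at this
    have hred : ∀ N, FreeGroup.IsReduced ((k⁻¹).toWord ++ List.replicate N x) := by
      intro N
      rw [isReduced_append_iff]
      refine ⟨isReduced_toWord, ?_, ?_⟩
      · unfold FreeGroup.IsReduced
        exact List.isChain_replicate_of_rel N (fun _ => rfl)
      · intro a ha b hb
        rw [List.head?_replicate] at hb
        split_ifs at hb with h0
        · simp at hb
        · simp only [Option.mem_def, Option.some.injEq] at hb
          subst hb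
          exact hx1 a ha
    have hredN : ∀ N, FreeGroup.IsReduced (List.replicate N x) := fun N => (isReduced_append_iff.1 (hred N)).2.1
    have hinf : Set.Infinite {h | col σ [] (h * k) ≠ col σ [] h} := by
      have hinj : Function.Injective (fun N : ℕ => ((mk (List.replicate (N + 1) x) : FreeGroup X))⁻¹) := by
        intro N N' h
        have h2 := congrArg FreeGroup.toWord (inv_injective h)
        rw [toWord_mk_of_isReduced (hredN _), toWord_mk_of_isReduced (hredN _)] at h2
        have := congrArg List.length h2
        simpa using this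
      refine (Set.infinite_range_of_injective hinj).mono ?_
      rintro _ ⟨N, rfl⟩
      show col σ [] ((mk (List.replicate (N + 1) x))⁻¹ * k) ≠ col σ [] ((mk (List.replicate (N + 1) x))⁻¹)
      unfold col
      rw [σ.sec_nil, σ.sec_nil, mul_inv_rev, inv_inv]
      have e : (k⁻¹ * mk (List.replicate (N + 1) x)).toWord = (k⁻¹).toWord ++ List.replicate (N + 1) x := by
        have : k⁻¹ * mk (List.replicate (N + 1) x) = mk ((k⁻¹).toWord ++ List.replicate (N + 1) x) := by
          rw [← mul_mk, mk_toWord]
        rw [this, toWord_mk_of_isReduced (hred _)]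
      rw [e, toWord_mk_of_isReduced (hredN _), hft]
      simp only [List.cons_append, List.head?_cons, List.replicate_succ, ne_eq, Option.some.injEq]
      exact hxf.symm
    exact hinf hinv
  by_contra hne
  exact pow_ne_one' hne hm0 hk1

end

end Pool.Agent.MP1d7ced
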