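import Mathlib
import Pool.Agent.Lib.MP_1d7ced_al.Colour

/-! Word lengths of finite generating sets and the abstract main theorem. -/

namespace Pool.Agent.MP1d7ced

open FreeGroup

section wordlen

variable {G : Type*} [Group G] (S : Set G)

/-- lengths of the words over `S` representing `g` -/
def reps (g : G) : Set ℕ := {n | ∃ l : List G, l.length = n ∧ (∀ s ∈ l, s ∈ S) ∧ l.prod = g}

variable {S}

lemma reps_nonempty (hinv : ∀ s ∈ S, s⁻¹ ∈ S) (hgen : Subgroup.closure S = ⊤) (g : G) : (reps S g).Nonempty := by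
  have hg : g ∈ Subgroup.closure S := by rw [hgen]; trivial
  induction hg using Subgroup.closure_induction with
  | mem x hx => exact ⟨1, [x], rfl, by simpa using hx, by simp⟩
  | one => exact ⟨0, [], rfl, by simp, rfl⟩
  | mul x y _ _ hx hy =>
    obtain ⟨n, l, h1, h2, h3⟩ := hx
    obtain ⟨m, k, h4, h5, h6⟩ := hy
    refine ⟨n + m, l ++ k, by simp [h1, h4], ?_, by rw [List.prod_append, h3, h6]⟩
    intro s hs
    rcases List.mem_append.1 hs with hs | hs
    · exact h2 s hs
    · exact h5 s hs
  | inv x _ hx =>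
    obtain ⟨n, l, h1, h2, h3⟩ := hx
    refine ⟨n, (l.map (fun x => x⁻¹)).reverse, by simp [h1], ?_, ?_⟩
    · intro s hs
      rw [List.mem_reverse, List.mem_map] at hs
      obtain ⟨t, ht, rfl⟩ := hs
      exact hinv t (h2 t ht)
    · rw [← List.prod_inv_reverse, h3]

/-- word length with respect to a finite symmetric generating set -/
noncomputable def wordLen (hfin : S.Finite) (hinv : ∀ s ∈ S, s⁻¹ ∈ S) (hgen : Subgroup.closure S = ⊤) : Len G where
  ell g := sInf (reps S g)
  one := by
    apply Nat.eq_zero_of_le_zero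
    exact Nat.sInf_le ⟨[], rfl, by simp, rfl⟩
  eq_one g hg := by
    obtain ⟨l, h1, h2, h3⟩ := Nat.sInf_mem (reps_nonempty hinv hgen g)
    rw [hg, List.length_eq_zero_iff] at h1
    rw [← h3, h1]; rfl
  inv g := by
    have key : ∀ g : G, sInf (reps S g⁻¹) ≤ sInf (reps S g) := by
      intro g
      obtain ⟨l, h1, h2, h3⟩ := Nat.sInf_mem (reps_nonempty hinv hgen g)
      apply Nat.sInf_le
      refine ⟨(l.map (fun x => x⁻¹)).reverse, by simp [h1], ?_, ?_⟩
      · intro s hs
        rw [List.mem_reverse, List.mem_map] at hs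
        obtain ⟨t, ht, rfl⟩ := hs
        exact hinv t (h2 t ht)
      · rw [← List.prod_inv_reverse, h3]
    apply le_antisymm (key g)
    have := key g⁻¹
    rwa [inv_inv] at this
  mul_le g h := by
    obtain ⟨l, h1, h2, h3⟩ := Nat.sInf_mem (reps_nonempty hinv hgen g)
    obtain ⟨k, h4, h5, h6⟩ := Nat.sInf_mem (reps_nonempty hinv hgen h)
    apply Nat.sInf_le
    refine ⟨l ++ k, by rw [List.length_append, h1, h4], ?_, by rw [List.prod_append, h3, h6]⟩
    intro s hs
    rcases List.mem_append.1 hs with hs | hs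
    · exact h2 s hs
    · exact h5 s hs
  finite_ball n := by
    have : Finite S := hfin.to_subtype
    have h1 := (List.finite_length_le S n).image (fun l : List S => (l.map Subtype.val).prod)
    refine h1.subset ?_
    intro g hg
    obtain ⟨l, h1, h2, h3⟩ := Nat.sInf_mem (reps_nonempty hinv hgen g)
    refine ⟨l.attach.map (fun s => ⟨s.1, h2 s.1 s.2⟩), ?_, ?_⟩
    · show (l.attach.map _).length ≤ n
      rw [List.length_map, List.length_attach, h1]
      exact hg
    · show ((l.attach.map _).map Subtype.val).prod = g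
      rw [List.map_map]
      have : (Subtype.val ∘ fun s : {x // x ∈ l} => (⟨s.1, h2 s.1 s.2⟩ : S)) = Subtype.val := rfl
      rw [this, List.attach_map_subtype_val, h3]
  geod g hg := by
    obtain ⟨l, h1, h2, h3⟩ := Nat.sInf_mem (reps_nonempty hinv hgen g)
    cases l with
    | nil => exact absurd h3.symm hg
    | cons s l =>
      have hl : sInf (reps S l.prod) ≤ l.length :=
        Nat.sInf_le ⟨l, rfl, fun t ht => h2 t (List.mem_cons_of_mem _ ht), rfl⟩
      have hs : sInf (reps S s) ≤ 1 := Nat.sInf_le ⟨[s], rfl, by simpa using h2 s (by simp), by simp⟩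
      have hgle : sInf (reps S g) ≤ sInf (reps S s) + sInf (reps S l.prod) := by
        obtain ⟨a, a1, a2, a3⟩ := Nat.sInf_mem (reps_nonempty hinv hgen s)
        obtain ⟨b, b1, b2, b3⟩ := Nat.sInf_mem (reps_nonempty hinv hgen l.prod)
        apply Nat.sInf_le
        refine ⟨a ++ b, by rw [List.length_append, a1, b1], ?_, ?_⟩
        · intro t ht
          rcases List.mem_append.1 ht with ht | ht
          · exact a2 t ht
          · exact b2 t ht
        · rw [List.prod_append, a3, b3, ← h3, List.prod_cons]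
      rw [List.length_cons] at h1
      refine ⟨s, l.prod, by rw [← h3, List.prod_cons], ?_, ?_⟩ <;> omega

lemma wordLen_sec_le {A : Type*} (σ : SelfSim G A) (hfin : S.Finite) (hinv : ∀ s ∈ S, s⁻¹ ∈ S)
    (hgen : Subgroup.closure S = ⊤) (hS : ∀ s ∈ S, ∀ u, σ.sec s u ∈ S) (g : G) (u : List A) :
    (wordLen hfin hinv hgen).ell (σ.sec g u) ≤ (wordLen hfin hinv hgen).ell g := by
  have key : ∀ l : List G, (∀ s ∈ l, s ∈ S) → ∀ u, l.length ∈ reps S (σ.sec l.prod u) := by
    intro l
    induction l with
    | nil => intro _ u; exact ⟨[], rfl, by simp, by simp [σ.sec_one]⟩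
    | cons s l ih =>
      intro hl u
      obtain ⟨k, k1, k2, k3⟩ := ih (fun t ht => hl t (List.mem_cons_of_mem _ ht)) u
      refine ⟨σ.sec s (σ.act l.prod u) :: k, by simp [k1], ?_, ?_⟩
      · intro t ht
        rcases List.mem_cons.1 ht with rfl | ht
        · exact hS s (hl s (by simp)) _
        · exact k2 t ht
      · rw [List.prod_cons, List.prod_cons, σ.sec_mul, k3]
  obtain ⟨l, h1, h2, h3⟩ := Nat.sInf_mem (reps_nonempty hinv hgen g)
  have h4 := key l h2 u
  rw [h3, h1] at h4
  exact Nat.sInf_le h4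

end wordlen

section fg

lemma finite_of_finite_generating {X : Type*} {S : Set (FreeGroup X)} (hfin : S.Finite)
    (hgen : Subgroup.closure S = ⊤) : Finite X := by
  classical
  by_contra hinf
  rw [not_finite_iff_infinite] at hinf
  have hT : (⋃ s ∈ S, {x : X | x ∈ s.toWord.map Prod.fst}).Finite := by
    refine hfin.biUnion fun s _ => ?_
    exact List.finite_toSet _
  obtain ⟨x, hx⟩ := hT.exists_notMem
  simp only [Set.mem_iUnion, Set.mem_ofPred_eq, not_exists] at hx
  let f : X → Multiplicative ℤ := fun y => if y = x then Multiplicative.ofAdd 1 else 1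
  let φ : FreeGroup X →* Multiplicative ℤ := FreeGroup.lift f
  have hker : S ⊆ (φ.ker : Set (FreeGroup X)) := by
    intro s hs
    show φ s = 1
    have hxs := hx s hs
    rw [← mk_toWord (x := s)]
    show FreeGroup.lift f (mk s.toWord) = 1
    rw [FreeGroup.lift_mk]
    apply List.prod_eq_one
    intro t ht
    rw [List.mem_map] at ht
    obtain ⟨a, ha, rfl⟩ := ht
    have hne : a.1 ≠ x := by
      rintro rfl
      exact hxs (List.mem_map.2 ⟨a, ha, rfl⟩)
    simp [f, hne]
  have h1 : Subgroup.closure S ≤ φ.ker := (Subgroup.closure_le _).2 hker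
  have h2 : FreeGroup.of x ∈ φ.ker := h1 (by rw [hgen]; trivial)
  rw [MonoidHom.mem_ker] at h2
  simp only [φ, FreeGroup.lift_apply_of, f, if_true] at h2
  exact absurd h2 (by decide)

lemma nontrivial_of_not_commute {X : Type*} (h : ∃ a b : FreeGroup X, ¬ Commute a b) : Nontrivial X := by
  classical
  by_contra hX
  rw [not_nontrivial_iff_subsingleton] at hX
  obtain ⟨a, b, hab⟩ := h
  apply hab
  rcases isEmpty_or_nonempty X with hE | ⟨⟨i⟩⟩
  · rw [Subsingleton.elim a b]
  · have key : ∀ w : FreeGroup X, ∃ n : ℤ, w = (FreeGroup.of i) ^ n := by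
      intro w
      induction w using FreeGroup.induction_on with
      | C1 => exact ⟨0, by simp⟩
      | of j => exact ⟨1, by rw [Subsingleton.elim j i]; simp⟩
      | inv_of j _ => exact ⟨-1, by rw [Subsingleton.elim j i]; simp⟩
      | mul x y hx hy =>
        obtain ⟨n, rfl⟩ := hx
        obtain ⟨m, rfl⟩ := hy
        exact ⟨n + m, by rw [zpow_add]⟩
    obtain ⟨n, rfl⟩ := key a
    obtain ⟨m, rfl⟩ := key b
    exact ((Commute.refl _).zpow_left n).zpow_right m

end fg

section transport

variable {G F A : Type*} [Group G] [Group F]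

/-- transport of a self-similar action along an isomorphism -/
def SelfSim.transport (σ : SelfSim G A) (e : G ≃* F) : SelfSim F A where
  act f u := σ.act (e.symm f) u
  sec f u := e (σ.sec (e.symm f) u)
  act_one u := by rw [_root_.map_one, σ.act_one]
  act_mul g h u := by rw [_root_.map_mul, σ.act_mul]
  act_append g u v := by rw [σ.act_append, e.symm_apply_apply]
  length_act g u := σ.length_act _ u
  faithful g h := by
    have := σ.faithful (e.symm g) h
    rwa [map_eq_one_iff _ e.symm.injective] at this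

end transport

universe u v

/-- abstract main theorem: sections of a finitely generated, free non-abelian, level-transitive self-similar
group with a finite symmetric generating set closed under sections are injective. -/
theorem selfSim_main {G : Type u} {A : Type v} [Group G] [IsFreeGroup G] [Finite A]
    (σ : SelfSim G A) (hnab : ∃ a b : G, ¬ Commute a b) (htr : σ.Transitive)
    {S : Set G} (hfin : S.Finite) (hinv : ∀ s ∈ S, s⁻¹ ∈ S) (hgen : Subgroup.closure S = ⊤)
    (hS : ∀ s ∈ S, ∀ u, σ.sec s u ∈ S) {g : G} {a : A} (hg : σ.sec g [a] = 1) : g = 1 := by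
  classical
  let X := IsFreeGroup.Generators G
  let e : G ≃* FreeGroup X := IsFreeGroup.toFreeGroup G
  let τ : SelfSim (FreeGroup X) A := σ.transport e
  let S' : Set (FreeGroup X) := e '' S
  have hfin' : S'.Finite := hfin.image _
  have hinv' : ∀ s ∈ S', s⁻¹ ∈ S' := by
    rintro _ ⟨s, hs, rfl⟩
    exact ⟨s⁻¹, hinv s hs, _root_.map_inv _ _⟩
  have hgen' : Subgroup.closure S' = ⊤ := by
    have h1 := MonoidHom.map_closure e.toMonoidHom S
    rw [hgen] at h1
    have h2 : (⊤ : Subgroup G).map e.toMonoidHom = ⊤ := by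
      rw [Subgroup.map_top_of_surjective]
      exact e.surjective
    rw [h2] at h1
    exact h1.symm
  have hS' : ∀ s ∈ S', ∀ u, τ.sec s u ∈ S' := by
    rintro _ ⟨s, hs, rfl⟩ u
    refine ⟨σ.sec s u, hS s hs u, ?_⟩
    show e (σ.sec s u) = e (σ.sec (e.symm (e s)) u)
    rw [e.symm_apply_apply]
  have hnab' : ∃ a b : FreeGroup X, ¬ Commute a b := by
    obtain ⟨a, b, hab⟩ := hnab
    refine ⟨e a, e b, fun h => hab ?_⟩
    have := congrArg e.symm h.eq
    rw [_root_.map_mul, _root_.map_mul, e.symm_apply_apply, e.symm_apply_apply] at this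
    exact this
  have hX : Finite X := finite_of_finite_generating hfin' hgen'
  have hXn : Nontrivial X := nontrivial_of_not_commute hnab'
  have htr' : τ.Transitive := by
    intro u v huv
    obtain ⟨g, hg⟩ := htr u v huv
    refine ⟨e g, ?_⟩
    show σ.act (e.symm (e g)) u = v
    rw [e.symm_apply_apply, hg]
  let L : Len (FreeGroup X) := wordLen hfin' hinv' hgen'
  have hsec : ∀ g u, L.ell (τ.sec g u) ≤ L.ell g := wordLen_sec_le τ hfin' hinv' hgen' hS'
  obtain ⟨K, hK⟩ := exists_concat L
  have hb := sec_bound (σ := τ) (L := L) htr' hsec hK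
  have h1 : e g = 1 := by
    apply eq_one_of_sec_eq_one (σ := τ) hsec hb (a := a)
    show e (σ.sec (e.symm (e g)) [a]) = 1
    rw [e.symm_apply_apply, hg, _root_.map_one]
  rwa [map_eq_one_iff _ e.injective] at h1

end Pool.Agent.MP1d7ced
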