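import Mathlib

/-! Invertible transducers (Mealy automata) and the groups they generate: definitions. -/

namespace Pool.Agent.MP1d7ced

universe u v

/-- An invertible transducer with state set `Q` and alphabet `A`: the transition map `δ : Q → A → Q` and,
for every state `q`, the output permutation `lam q` of the alphabet. -/
structure InvTransducer (Q : Type u) (A : Type v) where
  /-- transition map -/
  δ : Q → A → Q
  /-- output permutation of a state -/
  lam : Q → Equiv.Perm A

namespace InvTransducer

variable {Q : Type u} {A : Type v} (M : InvTransducer Q A)

/-- The action of a state on finite words: `q(aw) = lam_q(a) (δ(q,a))(w)`. -/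
def act : Q → List A → List A
  | _, [] => []
  | q, a :: w => M.lam q a :: act (M.δ q a) w

/-- The inverse of the action of a state. -/
def actInv : Q → List A → List A
  | _, [] => []
  | q, b :: w => (M.lam q).symm b :: actInv (M.δ q ((M.lam q).symm b)) w

lemma actInv_act (q : Q) (w : List A) : M.actInv q (M.act q w) = w := by
  induction w generalizing q with
  | nil => rfl
  | cons a w ih => simp [act, actInv, ih]

lemma act_actInv (q : Q) (w : List A) : M.act q (M.actInv q w) = w := by
  induction w generalizing q with
  | nil => rfl
  | cons a w ih => simp [act, actInv, ih]

/-- The permutation of the set of finite words (the vertices of the rooted tree) given by a state. -/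
def perm (q : Q) : Equiv.Perm (List A) where
  toFun := M.act q
  invFun := M.actInv q
  left_inv := M.actInv_act q
  right_inv := M.act_actInv q

/-- The group generated by the transducer. -/
def group : Subgroup (Equiv.Perm (List A)) := Subgroup.closure (Set.range M.perm)

/-- `M` is reversible: for every letter `a` the map `q ↦ δ(q,a)` is a permutation of the states. -/
def Reversible : Prop := ∀ a : A, Function.Bijective (fun q => M.δ q a)

/-- `M` is bireversible: it is reversible and for every letter `b` the map `q ↦ δ(q, lam_q⁻¹(b))` is a
permutation of the states. -/
def Bireversible : Prop :=
  M.Reversible ∧ ∀ b : A, Function.Bijective (fun q => M.δ q ((M.lam q).symm b))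

/-- `M` is minimal (reduced): distinct states act differently on the tree. -/
def Minimal : Prop := Function.Injective M.perm

/-- The group of `M` acts transitively on every level `A^n` of the tree. -/
def LevelTransitive : Prop :=
  ∀ n : ℕ, ∀ u v : List A, u.length = n → v.length = n → ∃ g ∈ M.group, g u = v

end InvTransducer

end Pool.Agent.MP1d7ced
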